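import Pool.Agent.Lib.MP_b5021c_nt.B.H69.I3G

/-!
# MP_b5021c_nt, row I3C: the pointwise inequality (I3)
-/

namespace Pool.Agent.B5.H69

open scoped LaurentPolynomial
open Pool.Agent.B5 Polynomial

noncomputable section

theorem i3c (hA4 : A4S) (hA2 : A2cS) (hA6 : A6S) (hA7 : A7S) (hI1 : I1S) (hI2 : I2S) (hGen : GenS)
    (hMul : MultiS) (hSmall : SmallS) (hEv : EvRS) (hZf : ZfinS) (hSt : StSpecS) (hG0 : G0S) :
    I3S := by
  intro O _ _ _ _ P L _ _ _ _ _ phi D S i0 eta h c n G hfd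
  classical
  obtain ⟨hE1, hE2, hE3, hE4⟩ := hEv O
  have hsm := hSmall O P L phi D S i0 eta h c n G hfd
  obtain ⟨-, -, -, hVww, -, hpos⟩ := hG0 O P L phi D S i0 eta h hfd.cc
  -- the data
  have hex : ∀ l : {l : Fin n // l ∈ snp phi S i0 G}, ∃ (b : Ker (co phi i0)) (j : P) (e : (RO O)ˣ),
      Spt phi S i0 G (l : Fin n) b j e := by
    intro l
    have hl := (Finset.mem_filter.mp l.2).2
    exact (hsm l.1 hl.1).2.2 hl.2
  choose b jj e hspt using hex
  have hd : Dat phi D S i0 eta h c n G {l : Fin n // l ∈ snp phi S i0 G} (fun l => (l : Fin n))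
      b jj e := ⟨hfd, Subtype.val_injective, hspt⟩
  have hj : ∀ l, co (phK phi (co phi i0)) (jj l) (b l) = 1 := fun l => (hspt l).bj
  have hI := fun l : {l : Fin n // l ∈ snp phi S i0 G} =>
    hI1 O P L phi D S i0 eta h c n G hfd (l : Fin n) (b l) (jj l) (e l) (hspt l) (hj l)
  have hqe : ∀ l, ∃ q : AO O (Ker (co (phK phi (co phi i0)) (jj l))),
      Xl phi D i0 (b l) (jj l) (hj l) (e l) =
      q * ∏ i ∈ Finset.univ.erase (l : Fin n), res (Ker (co (phK phi (co phi i0)) (jj l))) (G i) := by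
    intro l
    obtain ⟨q, hq⟩ := (hI l).2
    exact ⟨q, by rw [hq, mul_comm]⟩
  choose q hX using hqe
  have hq2 : ∀ l, ∀ a ∈ supp (q l), ∀ j' ∈ OO phi S, phi ((b l : Ker (co phi i0)) : L) j' = 0 →
      phi ((a : Ker (co phi i0)) : L) j' = 0 := by
    intro l
    exact hI2 O P L phi D S i0 eta h c n G hfd (l : Fin n) (b l) (jj l) (e l) (hspt l) (hj l) (q l)
      (hX l)
  have hqne : ∀ l, q l ≠ 0 := by
    intro l h0
    apply (hI l).1
    rw [hX l, h0, zero_mul]
  -- the generic functional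
  obtain ⟨lam0, hl0S, hl0⟩ := hfd.cc.ray.2.2
  have hspan : ∀ a ∈ Submodule.span ℤ ({S} : Set L), ∃ m : ℤ, a = m • S := by
    intro a ha
    obtain ⟨m, hm⟩ := Submodule.mem_span_singleton.mp ha
    exact ⟨m, hm.symm⟩
  have hsat : Sat (Submodule.span ℤ ({S} : Set L)) := by
    intro m a hm ha
    obtain ⟨k, hk⟩ := hspan _ ha
    have h1 : m * co phi i0 a = k := by
      have h2 := congrArg (co phi i0) hk
      rw [map_zsmul, map_zsmul, h, smul_eq_mul, smul_eq_mul, mul_one] at h2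
      exact h2
    have h3 : m • (a - co phi i0 a • S) = 0 := by
      rw [smul_sub, hk, ← h1, mul_smul, sub_self]
    have h4 : a - co phi i0 a • S = 0 := (smul_eq_zero.mp h3).resolve_left hm
    rw [sub_eq_zero.mp h4]
    exact Submodule.smul_mem _ _ (Submodule.mem_span_singleton_self S)
  obtain ⟨lam, hlK, hlS', hlT⟩ := hGen L (D.coeff.support.filter fun a => a ≠ 0 ∧ a ≠ S)
    (Finset.univ.biUnion fun l : {l : Fin n // l ∈ snp phi S i0 G} =>
      (q l).coeff.support.image fun a : Ker (co (phK phi (co phi i0)) (jj l)) =>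
        ((a : Ker (co phi i0)) : L))
    (Submodule.span ℤ ({S} : Set L)) lam0 (by
      intro k hk
      obtain ⟨m, rfl⟩ := hspan k hk
      rw [map_zsmul, hl0S, smul_zero]) hsat (by
      intro a ha
      obtain ⟨h1, h2, h3⟩ := Finset.mem_filter.mp ha
      exact hl0 a (Finsupp.mem_support_iff.mp h1) h2 h3) (by
      intro a ha a' ha' hsub
      obtain ⟨m, hm⟩ := hspan _ hsub
      obtain ⟨l, _, hl⟩ := Finset.mem_biUnion.mp ha
      obtain ⟨a1, _, rfl⟩ := Finset.mem_image.mp hl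
      obtain ⟨l', _, hl'⟩ := Finset.mem_biUnion.mp ha'
      obtain ⟨a2, _, rfl⟩ := Finset.mem_image.mp hl'
      have h1 := congrArg (co phi i0) hm
      rw [map_sub, map_zsmul, h, mem_Ker.mp (a1 : Ker (co phi i0)).2,
        mem_Ker.mp (a2 : Ker (co phi i0)).2, sub_zero, smul_eq_mul, mul_one] at h1
      rw [← h1, zero_smul] at hm
      exact sub_eq_zero.mp hm)
  have hlS : lam S = 0 := hlK S (Submodule.mem_span_singleton_self S)
  have hlam : ∀ a ∈ supp D, a ≠ 0 → a ≠ S → 0 < lam a := fun a ha h1 h2 =>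
    hlS' a (Finset.mem_filter.mpr ⟨Finsupp.mem_support_iff.mpr ha, h1, h2⟩)
  -- the lowest exponents
  have hmin : ∀ l, ∃ am ∈ (q l).coeff.support, ∀ a ∈ (q l).coeff.support,
      lam ((am : Ker (co phi i0)) : L) ≤ lam ((a : Ker (co phi i0)) : L) := by
    intro l
    apply Finset.exists_min_image
    rw [Finsupp.support_nonempty_iff]
    intro h0
    apply hqne l
    exact AddMonoidAlgebra.coeff_eq_zero.mp h0
  choose am ham1 ham2 using hmin
  have huq : ∀ l, ∀ a ∈ supp (q l), lam ((a : Ker (co phi i0)) : L) ≤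
      lam ((am l : Ker (co phi i0)) : L) → a = am l := by
    intro l a ha hle
    have h1 := ham2 l a (Finsupp.mem_support_iff.mpr ha)
    have h2 := hlT ((a : Ker (co phi i0)) : L) (Finset.mem_biUnion.mpr ⟨l, Finset.mem_univ _,
      Finset.mem_image.mpr ⟨a, Finsupp.mem_support_iff.mpr ha, rfl⟩⟩)
      ((am l : Ker (co phi i0)) : L) (Finset.mem_biUnion.mpr ⟨l, Finset.mem_univ _,
      Finset.mem_image.mpr ⟨am l, ham1 l, rfl⟩⟩) (le_antisymm hle h1)
    exact Subtype.ext (Subtype.ext h2)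
  -- the inequality for generic `z`
  have hgen : ∀ z : Circle, evR z (D.coeff 0) ≠ 0 → evR z c ≠ 0 →
      (∑ l, ‖evR z ((q l).coeff (am l))‖) *
      ∏ i ∈ Finset.univ.filter (fun i => ∀ l : {l : Fin n // l ∈ snp phi S i0 G}, (l : Fin n) ≠ i),
        ‖evR z ((G i).coeff 0)‖ ≤
      2 * ‖evR z (D.coeff 0)‖ := by
    intro z hz hcz
    exact hd.gen hA4 hA2 hA6 hA7 hMul hSt hEv q hj hX hq2
      (fun a ha j hj => (hVww a ha).1 j hj) hpos lam hlS hlam
      (fun l => lam ((am l : Ker (co phi i0)) : L)) am (fun l => rfl)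
      (fun l a ha => ham2 l a (Finsupp.mem_support_iff.mpr ha)) huq z hz hcz
  -- conclusion
  refine ⟨fun i => if hi : i ∈ snp phi S i0 G then (q ⟨i, hi⟩).coeff (am ⟨i, hi⟩) else 1, ?_, ?_⟩
  · intro i
    dsimp only
    by_cases hi : i ∈ snp phi S i0 G
    · rw [dif_pos hi]
      exact Finsupp.mem_support_iff.mp (ham1 ⟨i, hi⟩)
    · rw [dif_neg hi]
      exact one_ne_zero
  · have hprod : ∀ z : Circle, ∏ i ∈ Finset.univ.filter
        (fun i => ∀ l : {l : Fin n // l ∈ snp phi S i0 G}, (l : Fin n) ≠ i),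
        ‖evR z ((G i).coeff 0)‖ = ∏ i ∈ big G, ‖evR z ((G i).coeff 0)‖ := by
      intro z
      symm
      apply Finset.prod_subset
      · intro i hi
        rw [Finset.mem_filter]
        refine ⟨Finset.mem_univ _, ?_⟩
        intro l hl
        have h1 := (Finset.mem_filter.mp l.2).2.1
        apply h1
        rw [hl]
        exact (Finset.mem_filter.mp hi).2
      · intro i _ hi
        apply hE2
        apply (hsm i _).1
        intro h1
        exact hi (Finset.mem_filter.mpr ⟨Finset.mem_univ _, h1⟩)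
    have hsum : ∀ z : Circle, ∑ l ∈ snp phi S i0 G,
        ‖evR z (if hi : l ∈ snp phi S i0 G then (q ⟨l, hi⟩).coeff (am ⟨l, hi⟩) else 1)‖ *
          ∏ i ∈ big G, ‖evR z ((G i).coeff 0)‖ =
        (∑ l, ‖evR z ((q l).coeff (am l))‖) *
      ∏ i ∈ Finset.univ.filter (fun i => ∀ l : {l : Fin n // l ∈ snp phi S i0 G}, (l : Fin n) ≠ i),
        ‖evR z ((G i).coeff 0)‖ := by
      intro z
      rw [hprod, Finset.sum_mul, ← Finset.sum_coe_sort (snp phi S i0 G)]
      apply Finset.sum_congr rfl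
      intro l _
      rw [dif_pos l.2]
    have hclosed : IsClosed {z : Circle | ∑ l ∈ snp phi S i0 G,
        ‖evR z (if hi : l ∈ snp phi S i0 G then (q ⟨l, hi⟩).coeff (am ⟨l, hi⟩) else 1)‖ *
          ∏ i ∈ big G, ‖evR z ((G i).coeff 0)‖ ≤ 2 * ‖evR z (D.coeff 0)‖} := by
      apply isClosed_le
      · apply continuous_finsetSum
        intro l _
        apply Continuous.mul
        · exact (hE4 _).norm
        · apply continuous_finsetProd
          intro i _
          exact (hE4 _).norm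
      · exact continuous_const.mul (hE4 _).norm
    apply all_of_closed _ hclosed ({z : Circle | evR z (D.coeff 0) = 0} ∪ {z : Circle | evR z c = 0})
      ((hZf O _ hfd.cc.dd.st.1).union (hZf O _ hfd.c0))
    intro z hz
    have hz1 : evR z (D.coeff 0) ≠ 0 := fun h1 => hz (Or.inl h1)
    have hz2 : evR z c ≠ 0 := fun h1 => hz (Or.inr h1)
    have h1 := hgen z hz1 hz2
    rw [← hsum z] at h1
    exact h1

end

end Pool.Agent.B5.H69
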