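import Pool.Agent.Lib.MP_b5021c_nt.IfaceG

/-!
# MP_b5021c_nt, row I3C, part 1: weighted evaluations, several variable Schwarz-Pick
-/

namespace Pool.Agent.B5.H69

open scoped LaurentPolynomial
open Pool.Agent.B5 Polynomial

noncomputable section

section Ln

variable {O : Type} [CommRing O] [Coef O] {N : Type} [AddCommGroup N]

/-- Weighted evaluation. -/
def ln (z : Circle) (w : N → ℂ) (G : AO O N) : ℂ := G.coeff.sum fun a c => evR z c * w a

theorem ln_eq (z : Circle) (w : N → ℂ) (G : AO O N) :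
    ln z w G = ∑ a ∈ G.coeff.support, evR z (G.coeff a) * w a := rfl

theorem ln_zero (z : Circle) (w : N → ℂ) : ln z w (0 : AO O N) = 0 := by
  simp [ln]

theorem ln_add (z : Circle) (w : N → ℂ) (G H : AO O N) :
    ln z w (G + H) = ln z w G + ln z w H := by
  classical
  unfold ln
  rw [AddMonoidAlgebra.coeff_add]
  apply Finsupp.sum_add_index
  · intro a _; simp
  · intro a _ b c; rw [map_add, add_mul]

/-- `ln` as an additive map. -/
def lnHom (z : Circle) (w : N → ℂ) : AO O N →+ ℂ where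
  toFun := ln z w
  map_zero' := ln_zero z w
  map_add' := ln_add z w

theorem lnHom_apply (z : Circle) (w : N → ℂ) (G : AO O N) : lnHom z w G = ln z w G := rfl

theorem ln_sub (z : Circle) (w : N → ℂ) (G H : AO O N) :
    ln z w (G - H) = ln z w G - ln z w H := by
  rw [← lnHom_apply, map_sub, lnHom_apply, lnHom_apply]

theorem ln_sum {κ : Type} (z : Circle) (w : N → ℂ) (s : Finset κ) (G : κ → AO O N) :
    ln z w (∑ i ∈ s, G i) = ∑ i ∈ s, ln z w (G i) := by
  rw [← lnHom_apply, map_sum]; rfl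

theorem ln_single (z : Circle) (w : N → ℂ) (a : N) (c : RO O) :
    ln z w (AddMonoidAlgebra.single a c) = evR z c * w a := by
  unfold ln
  rw [AddMonoidAlgebra.coeff_single]
  apply Finsupp.sum_single_index
  simp

theorem ln_congr (z : Circle) {w w' : N → ℂ} {G : AO O N}
    (h : ∀ a ∈ supp G, w a = w' a) : ln z w G = ln z w' G := by
  rw [ln_eq, ln_eq]
  apply Finset.sum_congr rfl
  intro a ha
  rw [h a (Finsupp.mem_support_iff.mp ha)]

theorem ln_wadd (z : Circle) (w w' : N → ℂ) (G : AO O N) :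
    ln z (fun a => w a + w' a) G = ln z w G + ln z w' G := by
  rw [ln_eq, ln_eq, ln_eq, ← Finset.sum_add_distrib]
  apply Finset.sum_congr rfl
  intro a _
  ring

theorem ln_wmul (z : Circle) (r : ℂ) (w : N → ℂ) (G : AO O N) :
    ln z (fun a => r * w a) G = r * ln z w G := by
  rw [ln_eq, ln_eq, Finset.mul_sum]
  apply Finset.sum_congr rfl
  intro a _
  ring

theorem ln_wsum {κ : Type} (z : Circle) (s : Finset κ) (w : κ → N → ℂ) (G : AO O N) :
    ln z (fun a => ∑ i ∈ s, w i a) G = ∑ i ∈ s, ln z (w i) G := by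
  simp only [ln_eq, Finset.mul_sum]
  rw [Finset.sum_comm]

theorem ln_cst (z : Circle) (w : N → ℂ) (hw : w 0 = 1) (c : RO O) :
    ln z w (cst c : AO O N) = evR z c := by
  rw [cst, ln_single, hw, mul_one]

theorem ln_mul (z : Circle) (w : N → ℂ) (G H : AO O N)
    (h : ∀ a ∈ supp G, ∀ b ∈ supp H, w (a + b) = w a * w b) :
    ln z w (G * H) = ln z w G * ln z w H := by
  classical
  have hmul : G * H = ∑ a ∈ G.coeff.support, ∑ b ∈ H.coeff.support,
      AddMonoidAlgebra.single (a + b) (G.coeff a * H.coeff b) := by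
    rw [AddMonoidAlgebra.mul_def]
    rfl
  rw [hmul, ln_sum, ln_eq z w G, ln_eq z w H, Finset.sum_mul_sum]
  apply Finset.sum_congr rfl
  intro a ha
  rw [ln_sum]
  apply Finset.sum_congr rfl
  intro b hb
  rw [ln_single, h a (Finsupp.mem_support_iff.mp ha) b (Finsupp.mem_support_iff.mp hb), map_mul]
  ring

omit [Coef O] in
theorem supp_mul (G H : AO O N) (a : N) (ha : a ∈ supp (G * H)) :
    ∃ b ∈ supp G, ∃ c ∈ supp H, a = b + c := by
  classical
  by_contra hcon
  push Not at hcon
  apply ha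
  have hmul : G * H = ∑ a ∈ G.coeff.support, ∑ b ∈ H.coeff.support,
      AddMonoidAlgebra.single (a + b) (G.coeff a * H.coeff b) := by
    rw [AddMonoidAlgebra.mul_def]
    rfl
  rw [hmul, AddMonoidAlgebra.coeff_sum, Finsupp.finsetSum_apply]
  apply Finset.sum_eq_zero
  intro b hb
  rw [AddMonoidAlgebra.coeff_sum, Finsupp.finsetSum_apply]
  apply Finset.sum_eq_zero
  intro c hc
  rw [AddMonoidAlgebra.coeff_single, Finsupp.single_apply, if_neg]
  intro h
  exact hcon b (Finsupp.mem_support_iff.mp hb) c (Finsupp.mem_support_iff.mp hc) h.symm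

/-- Multiplicativity over a finite product. -/
theorem ln_prod {κ : Type} (z : Circle) (w : N → ℂ) (Q : AddSubmonoid N) (hw0 : w 0 = 1)
    (hw : ∀ a ∈ Q, ∀ b ∈ Q, w (a + b) = w a * w b) (s : Finset κ) (G : κ → AO O N)
    (hG : ∀ i ∈ s, ∀ a ∈ supp (G i), a ∈ Q) :
    (∀ a ∈ supp (∏ i ∈ s, G i), a ∈ Q) ∧ ln z w (∏ i ∈ s, G i) = ∏ i ∈ s, ln z w (G i) := by
  classical
  induction s using Finset.induction_on with
  | empty =>
    refine ⟨?_, ?_⟩
    · intro a ha
      rw [Finset.prod_empty] at ha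
      change (1 : AO O N).coeff a ≠ 0 at ha
      rw [AddMonoidAlgebra.one_def, AddMonoidAlgebra.coeff_single, Finsupp.single_apply] at ha
      have : a = 0 := by
        by_contra h
        exact ha (if_neg (fun h2 => h h2.symm))
      rw [this]
      exact Q.zero_mem
    · rw [Finset.prod_empty, Finset.prod_empty, AddMonoidAlgebra.one_def, ln_single, hw0, map_one,
        mul_one]
  | insert i s his ih =>
    obtain ⟨ih1, ih2⟩ := ih (fun j hj => hG j (Finset.mem_insert_of_mem hj))
    have hi := hG i (Finset.mem_insert_self i s)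
    rw [Finset.prod_insert his, Finset.prod_insert his]
    refine ⟨?_, ?_⟩
    · intro a ha
      obtain ⟨b, hb, c, hc, rfl⟩ := supp_mul _ _ _ ha
      exact Q.add_mem (hi b hb) (ih1 c hc)
    · rw [ln_mul z w _ _ (fun a ha b hb => hw a (hi a ha) b (ih1 b hb)), ih2]

/-- `mev` as a weighted evaluation. -/
theorem mev_eq {ι : Type} [Fintype ι] (z : Circle) (u : AddChar N Circle) (mu : ι → N →+ ℤ)
    (t : ι → ℂ) (G : AO O N) :
    mev u mu t (spec z G) = ln z (fun a => (u a : ℂ) * ∏ i, t i ^ (mu i a).toNat) G := by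
  classical
  unfold mev
  have h1 : (spec z G).coeff.support ⊆ G.coeff.support := by
    intro a ha
    rw [Finsupp.mem_support_iff, spec_coeff] at ha
    rw [Finsupp.mem_support_iff]
    intro h
    rw [h, map_zero] at ha
    exact ha rfl
  rw [Finsupp.sum_of_support_subset _ h1 _ (fun a _ => by simp), ln_eq]
  apply Finset.sum_congr rfl
  intro a _
  rw [spec_coeff]
  ring

/-- Closing, as a weighted evaluation. -/
theorem ln_cl (z : Circle) (k : N →+ ℤ) (S : N) (h : k S = 1) (eta : (RO O)ˣ) (w : Ker k → ℂ)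
    (D : AO O N) :
    ln z w (cl k S h eta D) =
      ln z (fun a => evR z ((eta ^ (k a) : (RO O)ˣ) : RO O) * w (prj k S h a)) D := by
  have h1 : (lnHom z w).comp (cl k S h eta : AO O N →+* AO O (Ker k)).toAddMonoidHom =
      lnHom z (fun a => evR z ((eta ^ (k a) : (RO O)ˣ) : RO O) * w (prj k S h a)) := by
    apply AddMonoidAlgebra.addMonoidHom_ext
    intro a c
    change ln z w (cl k S h eta (AddMonoidAlgebra.single a c)) = ln z _ (AddMonoidAlgebra.single a c)
    rw [cl_single, ln_single, ln_single, map_mul]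
    ring
  exact DFunLike.congr_fun h1 D

/-- Restriction, as a weighted evaluation. -/
theorem ln_res (z : Circle) (K : Submodule ℤ N) (w : N → ℂ) (D : AO O N) :
    ln z (fun a : K => w (a : N)) (res K D) = ln z (fun a => open Classical in if a ∈ K then w a else 0) D := by
  classical
  rw [ln_eq, ln_eq]
  have h1 : ∑ a ∈ D.coeff.support, evR z (D.coeff a) * (if a ∈ K then w a else 0) =
      ∑ a ∈ D.coeff.support.filter (fun a => a ∈ K), evR z (D.coeff a) * w a := by
    rw [Finset.sum_filter]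
    apply Finset.sum_congr rfl
    intro a _
    split_ifs <;> simp
  rw [h1]
  symm
  refine Finset.sum_bij' (i := fun a (ha : a ∈ D.coeff.support.filter (fun a => a ∈ K)) =>
      (⟨a, (Finset.mem_filter.mp ha).2⟩ : K)) (j := fun (a : K) _ => (a : N)) ?_ ?_ ?_ ?_ ?_
  · intro a ha
    have h2 := (Finset.mem_filter.mp ha).1
    rw [Finsupp.mem_support_iff] at h2 ⊢
    exact h2
  · intro a ha
    rw [Finset.mem_filter]
    refine ⟨?_, a.2⟩
    rw [Finsupp.mem_support_iff] at ha ⊢
    exact ha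
  · intro a ha; rfl
  · intro a ha; rfl
  · intro a ha
    rw [res_coeff]

end Ln

section SP

/-- Several variable Schwarz-Pick at the origin. -/
theorem schwarz_pick (hA4 : A4S) {κ : Type} [Fintype κ] [DecidableEq κ] (x w : Finset κ → ℂ)
    (h : ∀ ζ : κ → ℂ, (∀ i, ‖ζ i‖ ≤ 1) → ‖mae w ζ‖ ≤ ‖mae x ζ‖) :
    ∑ i, ‖x ∅ * w {i} - w ∅ * x {i}‖ ≤ ‖x ∅‖ ^ 2 - ‖w ∅‖ ^ 2 := by
  classical
  -- phases
  have hph : ∀ v : ℂ, ∃ ω : ℂ, ‖ω‖ = 1 ∧ ω * v = (‖v‖ : ℂ) := by
    intro v
    by_cases hv : v = 0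
    · exact ⟨1, by simp, by simp [hv]⟩
    · refine ⟨(‖v‖ : ℂ) / v, ?_, ?_⟩
      · rw [norm_div, Complex.norm_real, norm_norm, div_self (norm_ne_zero_iff.mpr hv)]
      · rw [div_mul_cancel₀ _ hv]
  choose ω hω1 hω2 using fun i : κ => hph (x ∅ * w {i} - w ∅ * x {i})
  let pol : (Finset κ → ℂ) → ℂ[X] := fun f =>
    ∑ T : Finset κ, Polynomial.monomial T.card (f T * ∏ i ∈ T, ω i)
  have hev : ∀ (f : Finset κ → ℂ) (s : ℂ), (pol f).eval s = mae f (fun i => s * ω i) := by
    intro f s
    simp only [pol, mae, Polynomial.eval_finsetSum, Polynomial.eval_monomial]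
    apply Finset.sum_congr rfl
    intro T _
    rw [Finset.prod_mul_distrib, Finset.prod_const]
    ring
  have h0 : ∀ f : Finset κ → ℂ, (pol f).coeff 0 = f ∅ := by
    intro f
    simp only [pol, Polynomial.finsetSum_coeff, Polynomial.coeff_monomial]
    rw [Finset.sum_eq_single ∅]
    · simp
    · intro T _ hT
      rw [if_neg]
      exact fun h => hT (Finset.card_eq_zero.mp h)
    · intro h; exact absurd (Finset.mem_univ _) h
  have h1 : ∀ f : Finset κ → ℂ, (pol f).coeff 1 = ∑ i, f {i} * ω i := by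
    intro f
    simp only [pol, Polynomial.finsetSum_coeff, Polynomial.coeff_monomial]
    rw [← Finset.sum_filter]
    have h3 : (Finset.univ.filter fun T : Finset κ => T.card = 1) =
        (Finset.univ : Finset κ).map ⟨fun i => {i}, Finset.singleton_injective⟩ := by
      ext T
      simp only [Finset.mem_filter, Finset.mem_univ, true_and, Finset.mem_map,
        Function.Embedding.coeFn_mk, Finset.card_eq_one]
      constructor
      · rintro ⟨a, rfl⟩; exact ⟨a, rfl⟩
      · rintro ⟨a, rfl⟩; exact ⟨a, rfl⟩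
    rw [h3, Finset.sum_map]
    apply Finset.sum_congr rfl
    intro i _
    simp
  have h4 := hA4 (pol x) (pol w) (by
    intro s hs
    rw [hev, hev]
    apply h
    intro i
    rw [norm_mul, hω1, mul_one]
    exact hs.le)
  rw [h0, h0, h1, h1] at h4
  have h5 : x ∅ * ∑ i, w {i} * ω i - w ∅ * ∑ i, x {i} * ω i =
      ((∑ i, ‖x ∅ * w {i} - w ∅ * x {i}‖ : ℝ) : ℂ) := by
    rw [Finset.mul_sum, Finset.mul_sum, ← Finset.sum_sub_distrib, Complex.ofReal_sum]
    apply Finset.sum_congr rfl
    intro i _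
    rw [← hω2 i]
    ring
  rw [h5, Complex.norm_real, Real.norm_eq_abs, abs_of_nonneg (Finset.sum_nonneg fun i _ =>
    norm_nonneg _)] at h4
  exact h4

end SP

end

end Pool.Agent.B5.H69
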