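import Pool.Agent.Lib.MP_b5021c_nt.B.H69.I3A

/-!
# MP_b5021c_nt, row I3C, part 2: the bound `|V - X| ≤ |X|` on the closed polydisc
-/

namespace Pool.Agent.B5.H69

open scoped LaurentPolynomial
open Pool.Agent.B5 Polynomial

noncomputable section

section Ind

variable {P : Type} [DecidableEq P] {N : Type} [AddCommGroup N]

/-- Indicator of the exponents without entries in `Z`. -/
def ind (mk : P → N →+ ℤ) (Z : Finset P) (a : N) : ℂ :=
  open Classical in if ∀ j ∈ Z, mk j a = 0 then 1 else 0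

/-- The exponents with non-negative entries in `Z`. -/
def NN (mk : P → N →+ ℤ) (Z : Finset P) : AddSubmonoid N where
  carrier := {a | ∀ j ∈ Z, 0 ≤ mk j a}
  zero_mem' := by intro _ _; rw [map_zero]
  add_mem' := by
    intro a b ha hb j hj
    rw [map_add]
    exact add_nonneg (ha j hj) (hb j hj)

omit [DecidableEq P] in
theorem ind_pos {mk : P → N →+ ℤ} {Z : Finset P} {a : N} (h : ∀ j ∈ Z, mk j a = 0) :
    ind mk Z a = 1 := by
  unfold ind
  rw [if_pos h]

omit [DecidableEq P] in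
theorem ind_neg {mk : P → N →+ ℤ} {Z : Finset P} {a : N} {j : P} (hj : j ∈ Z) (h : mk j a ≠ 0) :
    ind mk Z a = 0 := by
  unfold ind
  rw [if_neg]
  intro h2
  exact h (h2 j hj)

omit [DecidableEq P] in
theorem ind_zero (mk : P → N →+ ℤ) (Z : Finset P) : ind mk Z (0 : N) = 1 :=
  ind_pos fun j _ => map_zero _

omit [DecidableEq P] in
theorem ind_add (mk : P → N →+ ℤ) (Z : Finset P) (a b : N) (ha : ∀ j ∈ Z, 0 ≤ mk j a)
    (hb : ∀ j ∈ Z, 0 ≤ mk j b) : ind mk Z (a + b) = ind mk Z a * ind mk Z b := by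
  by_cases h1 : ∀ j ∈ Z, mk j a = 0
  · by_cases h2 : ∀ j ∈ Z, mk j b = 0
    · rw [ind_pos h1, ind_pos h2, ind_pos, one_mul]
      intro j hj
      rw [map_add, h1 j hj, h2 j hj, add_zero]
    · push Not at h2
      obtain ⟨j, hj, hne⟩ := h2
      rw [ind_neg hj hne, mul_zero]
      apply ind_neg hj
      rw [map_add, h1 j hj, zero_add]
      exact hne
  · push Not at h1
    obtain ⟨j, hj, hne⟩ := h1
    rw [ind_neg hj hne, zero_mul]
    apply ind_neg hj
    rw [map_add]
    have h3 := ha j hj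
    have h4 := hb j hj
    omega

omit [DecidableEq P] in
theorem ind_prod (mk : P → N →+ ℤ) (Z : Finset P) (a : N) (ha : ∀ j ∈ Z, 0 ≤ mk j a) :
    ∏ j : Z, (0 : ℂ) ^ (mk (j : P) a).toNat = ind mk Z a := by
  by_cases h1 : ∀ j ∈ Z, mk j a = 0
  · rw [ind_pos h1]
    apply Finset.prod_eq_one
    intro j _
    rw [h1 j j.2]
    simp
  · push Not at h1
    obtain ⟨j, hj, hne⟩ := h1
    rw [ind_neg hj hne]
    apply Finset.prod_eq_zero (Finset.mem_univ (⟨j, hj⟩ : Z))
    apply zero_pow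
    have := ha j hj
    change (mk j a).toNat ≠ 0
    omega

end Ind

section Ctx

variable {O : Type} [CommRing O] [IsDomain O] [IsPrincipalIdealRing O] [Coef O]
  {P L : Type} [Fintype P] [DecidableEq P] [AddCommGroup L] [Module.Free ℤ L] [Module.Finite ℤ L]

/-- The entries, on the kernel lattice. -/
def mK (phi : L →+ (P → ℤ)) (i0 : P) (j : P) : Ker (co phi i0) →+ ℤ := co (phK phi (co phi i0)) j

omit [Fintype P] [DecidableEq P] [Module.Free ℤ L] [Module.Finite ℤ L] in
theorem mK_apply (phi : L →+ (P → ℤ)) (i0 j : P) (a : Ker (co phi i0)) :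
    mK phi i0 j a = phi (a : L) j := rfl

omit [Module.Free ℤ L] [Module.Finite ℤ L] in
theorem prj_ker {k : L →+ ℤ} {S : L} (h : k S = 1) (a : Ker k) : prj k S h (a : L) = a := by
  apply Subtype.ext
  rw [prj_coe, mem_Ker.mp a.2, zero_smul, sub_zero]

/-- The weight of a point of the (partial) polydisc. -/
def wt (phi : L →+ (P → ℤ)) (i0 : P) (lam : L →+ ℤ) {κ : Type} [Fintype κ] (jj : κ → P)
    (Z : Finset P) (u : AddChar (Ker (co phi i0)) Circle) (s : ℂ) (ζ : κ → ℂ)
    (a : Ker (co phi i0)) : ℂ :=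
  s ^ (lam (a : L)).toNat * (ind (mK phi i0) Z a * (u a : ℂ) *
    ∏ l, ζ l ^ (mK phi i0 (jj l) a).toNat)

omit [DecidableEq P] in
/-- The key non-vanishing. -/
theorem lemB (hMul : MultiS) (hSt : StSpecS) (hEv : EvRS) (phi : L →+ (P → ℤ)) (D : AO O L) (S : L)
    (i0 : P) (eta : (RO O)ˣ) (h : co phi i0 S = 1) (hdd : DD phi D) (lam : L →+ ℤ)
    (hlS : lam S = 0) (hlam : ∀ a ∈ supp D, a ≠ 0 → a ≠ S → 0 < lam a) (z : Circle)
    (hz : evR z (D.coeff 0) ≠ 0) {κ : Type} [Fintype κ] (jj : κ → P)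
    (hjj : ∀ l, jj l ∈ OO phi S) (Z : Finset P) (hZ : ∀ j ∈ Z, j ∈ OO phi S)
    (u : AddChar (Ker (co phi i0)) Circle) (s y : ℂ) (ζ : κ → ℂ) (hs : ‖s‖ < 1) (hy : ‖y‖ < 1)
    (hζ : ∀ l, ‖ζ l‖ < 1) :
    ln z (wt phi i0 lam jj Z u s ζ) (res (Ker (co phi i0)) D) +
      y * (ln z (wt phi i0 lam jj Z u s ζ) (cl (co phi i0) S h eta D) -
        ln z (wt phi i0 lam jj Z u s ζ) (res (Ker (co phi i0)) D)) ≠ 0 := by
  classical
  obtain ⟨hE1, hE2, hE3, hE4⟩ := hEv O
  have hOO : ∀ j ∈ OO phi S, phi S j = 0 := fun j hj => (Finset.mem_filter.mp hj).2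
  -- the character
  let ηc : Circle := ⟨evR z (eta : RO O), by
    rw [Submonoid.unitSphere, Submonoid.mem_mk, Subsemigroup.mem_mk, Metric.mem_sphere, dist_zero_right]
    exact hE2 z _ eta.isUnit⟩
  have hηc : (ηc : ℂ) = evR z (eta : RO O) := rfl
  let u' : AddChar L Circle :=
    { toFun := fun a => u (prj (co phi i0) S h a) * ηc ^ (co phi i0 a)
      map_zero_eq_one' := by simp
      map_add_eq_mul' := fun a b => by
        rw [map_add (prj (co phi i0) S h), AddChar.map_add_eq_mul, map_add (co phi i0), zpow_add]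
        exact mul_mul_mul_comm _ _ _ _ }
  have hu' : ∀ a, u' a = u (prj (co phi i0) S h a) * ηc ^ (co phi i0 a) := fun a => rfl
  -- the functionals
  let mu : Bool ⊕ (κ ⊕ Z) → L →+ ℤ := Sum.elim (fun b => if b then lam else co phi i0)
    (Sum.elim (fun l => co phi (jj l)) (fun j => co phi (j : P)))
  let t : Bool ⊕ (κ ⊕ Z) → ℂ := Sum.elim (fun b => if b then s else y)
    (Sum.elim ζ (fun _ => 0))
  have hsub : ∀ a ∈ (spec z D).coeff.support, a ∈ supp D := by
    intro a ha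
    rw [Finsupp.mem_support_iff, spec_coeff] at ha
    intro h0
    apply ha
    rw [h0, map_zero]
  have hbin : ∀ a ∈ supp D, ∀ i, phi a i = 0 ∨ phi a i = 1 := fun a ha => hdd.bin a ha
  have hlam0 : ∀ a ∈ supp D, 0 ≤ lam a := by
    intro a ha
    by_cases h1 : a = 0
    · rw [h1, map_zero]
    · by_cases h2 : a = S
      · rw [h2, hlS]
      · exact (hlam a ha h1 h2).le
  have hco0 : ∀ i, ∀ a ∈ supp D, 0 ≤ co phi i a := by
    intro i a ha
    change 0 ≤ phi a i
    rcases hbin a ha i with h1 | h1 <;> omega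
  have hNn : ∀ i, Nn (mu i) (spec z D) := by
    intro i a ha
    have ha' := hsub a ha
    rcases i with b | l | j
    · cases b
      · exact hco0 i0 a ha'
      · exact hlam0 a ha'
    · exact hco0 (jj l) a ha'
    · exact hco0 (j : P) a ha'
  have hpos : ∀ a ∈ (spec z D).coeff.support, a ≠ 0 → 0 < ∑ i, mu i a := by
    intro a ha ha0
    have ha' := hsub a ha
    by_cases h2 : a = S
    · apply Finset.sum_pos' (fun i _ => hNn i a ha)
      refine ⟨Sum.inl false, Finset.mem_univ _, ?_⟩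
      change 0 < co phi i0 a
      rw [h2, h]
      norm_num
    · apply Finset.sum_pos' (fun i _ => hNn i a ha)
      refine ⟨Sum.inl true, Finset.mem_univ _, ?_⟩
      exact hlam a ha' ha0 h2
  have ht : ∀ i, ‖t i‖ < 1 := by
    intro i
    rcases i with b | l | j
    · cases b
      · exact hy
      · exact hs
    · exact hζ l
    · change ‖(0 : ℂ)‖ < 1
      rw [norm_zero]; norm_num
  have hkey := hMul L (spec z D) ((hSt O L D).1 hdd.st z hz) _ mu hNn hpos u' t ht
  rw [mev_eq] at hkey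
  -- the weights
  have hw : ∀ a ∈ supp D, (u' a : ℂ) * ∏ i, t i ^ (mu i a).toNat =
      (if a ∈ Ker (co phi i0) then wt phi i0 lam jj Z u s ζ (prj (co phi i0) S h a) else 0) +
      y * (evR z ((eta ^ (co phi i0 a) : (RO O)ˣ) : RO O) *
        wt phi i0 lam jj Z u s ζ (prj (co phi i0) S h a) -
        (if a ∈ Ker (co phi i0) then wt phi i0 lam jj Z u s ζ (prj (co phi i0) S h a) else 0)) := by
    intro a ha
    have hpr : ∀ j ∈ OO phi S, mK phi i0 j (prj (co phi i0) S h a) = co phi j a := by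
      intro j hj
      rw [mK_apply, prj_coe, map_sub, map_zsmul]
      change phi a j - (co phi i0 a) • phi S j = phi a j
      rw [hOO j hj, smul_zero, sub_zero]
    have hlp : lam ((prj (co phi i0) S h a : Ker (co phi i0)) : L) = lam a := by
      rw [prj_coe, map_sub, map_zsmul, hlS, smul_zero, sub_zero]
    have hprod : ∏ i, t i ^ (mu i a).toNat = (s ^ (lam a).toNat * y ^ (co phi i0 a).toNat) *
        ((∏ l, ζ l ^ (co phi (jj l) a).toNat) * ∏ j : Z, (0 : ℂ) ^ (co phi (j : P) a).toNat) := by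
      rw [Fintype.prod_sum_type, Fintype.prod_sum_type, Fintype.prod_bool]
      rfl
    have hind : ∏ j : Z, (0 : ℂ) ^ (co phi (j : P) a).toNat =
        ind (mK phi i0) Z (prj (co phi i0) S h a) := by
      rw [← ind_prod (mK phi i0) Z (prj (co phi i0) S h a)]
      · apply Finset.prod_congr rfl
        intro j _
        rw [hpr j (hZ j j.2)]
      · intro j hj
        rw [hpr j (hZ j hj)]
        exact hco0 j a ha
    have hwt : wt phi i0 lam jj Z u s ζ (prj (co phi i0) S h a) =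
        s ^ (lam a).toNat * ((∏ j : Z, (0 : ℂ) ^ (co phi (j : P) a).toNat) *
          (u (prj (co phi i0) S h a) : ℂ) * ∏ l, ζ l ^ (co phi (jj l) a).toNat) := by
      unfold wt
      rw [hlp, ← hind]
      congr 2
      apply Finset.prod_congr rfl
      intro l _
      rw [hpr (jj l) (hjj l)]
    rw [hprod, hwt, hu', Circle.coe_mul, Circle.coe_zpow, hηc]
    have hk : co phi i0 a = 0 ∨ co phi i0 a = 1 := hbin a ha i0
    rcases hk with hk | hk
    · rw [if_pos (mem_Ker.mpr hk), hk, zpow_zero, zpow_zero, Units.val_one, map_one]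
      simp only [Int.toNat_zero, pow_zero]
      ring
    · rw [if_neg (fun h2 => by rw [mem_Ker, hk] at h2; exact absurd h2 one_ne_zero), hk, zpow_one,
        zpow_one]
      simp only [Int.toNat_one, pow_one]
      ring
  rw [ln_congr z hw, ln_wadd, ln_wmul] at hkey
  have hsubw : ln z (fun a => evR z ((eta ^ (co phi i0 a) : (RO O)ˣ) : RO O) *
        wt phi i0 lam jj Z u s ζ (prj (co phi i0) S h a) -
        (if a ∈ Ker (co phi i0) then wt phi i0 lam jj Z u s ζ (prj (co phi i0) S h a) else 0)) D =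
      ln z (wt phi i0 lam jj Z u s ζ) (cl (co phi i0) S h eta D) -
        ln z (wt phi i0 lam jj Z u s ζ) (res (Ker (co phi i0)) D) := by
    rw [ln_cl]
    have h3 := ln_res z (Ker (co phi i0)) (fun a => wt phi i0 lam jj Z u s ζ (prj (co phi i0) S h a)) D
    have h4 : (fun a : Ker (co phi i0) => wt phi i0 lam jj Z u s ζ (prj (co phi i0) S h (a : L))) =
        wt phi i0 lam jj Z u s ζ := by
      funext a
      rw [prj_ker]
    rw [h4] at h3
    rw [h3, ln_eq, ln_eq, ln_eq, ← Finset.sum_sub_distrib]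
    apply Finset.sum_congr rfl
    intro a _
    ring
  have hres : ln z (fun a =>
        (if a ∈ Ker (co phi i0) then wt phi i0 lam jj Z u s ζ (prj (co phi i0) S h a) else 0)) D =
      ln z (wt phi i0 lam jj Z u s ζ) (res (Ker (co phi i0)) D) := by
    have h3 := ln_res z (Ker (co phi i0)) (fun a => wt phi i0 lam jj Z u s ζ (prj (co phi i0) S h a)) D
    have h4 : (fun a : Ker (co phi i0) => wt phi i0 lam jj Z u s ζ (prj (co phi i0) S h (a : L))) =
        wt phi i0 lam jj Z u s ζ := by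
      funext a
      rw [prj_ker]
    rw [h4] at h3
    exact h3.symm
  rw [hsubw, hres] at hkey
  exact hkey

/-- Zero-freeness implies a bound. -/
theorem norm_le_of_ne (X W : ℂ) (h : ∀ y : ℂ, ‖y‖ < 1 → X + y * W ≠ 0) : ‖W‖ ≤ ‖X‖ := by
  by_contra hcon
  push Not at hcon
  have hW : W ≠ 0 := by
    intro h0
    rw [h0, norm_zero] at hcon
    exact absurd hcon (not_lt.mpr (norm_nonneg _))
  apply h (-X / W)
  · rw [norm_div, norm_neg, div_lt_one (norm_pos_iff.mpr hW)]
    exact hcon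
  · field_simp
    ring

/-- The bound on the closed polydisc. -/
theorem lemB2 (hMul : MultiS) (hSt : StSpecS) (hEv : EvRS) (phi : L →+ (P → ℤ)) (D : AO O L) (S : L)
    (i0 : P) (eta : (RO O)ˣ) (h : co phi i0 S = 1) (hdd : DD phi D) (lam : L →+ ℤ)
    (hlS : lam S = 0) (hlam : ∀ a ∈ supp D, a ≠ 0 → a ≠ S → 0 < lam a) (z : Circle)
    (hz : evR z (D.coeff 0) ≠ 0) {κ : Type} [Fintype κ] (jj : κ → P)
    (hjj : ∀ l, jj l ∈ OO phi S) (Z : Finset P) (hZ : ∀ j ∈ Z, j ∈ OO phi S)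
    (u : AddChar (Ker (co phi i0)) Circle) (ζ : κ → ℂ) (hζ : ∀ l, ‖ζ l‖ ≤ 1) :
    ‖ln z (wt phi i0 lam jj Z u 1 ζ) (cl (co phi i0) S h eta D) -
        ln z (wt phi i0 lam jj Z u 1 ζ) (res (Ker (co phi i0)) D)‖ ≤
      ‖ln z (wt phi i0 lam jj Z u 1 ζ) (res (Ker (co phi i0)) D)‖ := by
  classical
  have hcont : ∀ G : AO O (Ker (co phi i0)),
      Continuous fun r : ℝ => ln z (wt phi i0 lam jj Z u (r : ℂ) (fun l => (r : ℂ) * ζ l)) G := by
    intro G
    unfold ln Finsupp.sum wt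
    fun_prop
  have hclosed : IsClosed {r : ℝ |
      ‖ln z (wt phi i0 lam jj Z u (r : ℂ) (fun l => (r : ℂ) * ζ l)) (cl (co phi i0) S h eta D) -
        ln z (wt phi i0 lam jj Z u (r : ℂ) (fun l => (r : ℂ) * ζ l)) (res (Ker (co phi i0)) D)‖ ≤
      ‖ln z (wt phi i0 lam jj Z u (r : ℂ) (fun l => (r : ℂ) * ζ l)) (res (Ker (co phi i0)) D)‖} :=
    isClosed_le ((hcont _).sub (hcont _)).norm (hcont _).norm
  have hsub : Set.Ioo (0 : ℝ) 1 ⊆ {r : ℝ |
      ‖ln z (wt phi i0 lam jj Z u (r : ℂ) (fun l => (r : ℂ) * ζ l)) (cl (co phi i0) S h eta D) -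
        ln z (wt phi i0 lam jj Z u (r : ℂ) (fun l => (r : ℂ) * ζ l)) (res (Ker (co phi i0)) D)‖ ≤
      ‖ln z (wt phi i0 lam jj Z u (r : ℂ) (fun l => (r : ℂ) * ζ l)) (res (Ker (co phi i0)) D)‖} := by
    intro r hr
    apply norm_le_of_ne
    intro y hy
    have hr1 : ‖(r : ℂ)‖ < 1 := by
      rw [Complex.norm_real, Real.norm_eq_abs, abs_of_pos hr.1]
      exact hr.2
    apply lemB hMul hSt hEv phi D S i0 eta h hdd lam hlS hlam z hz jj hjj Z hZ u (r : ℂ) y _ hr1 hy
    intro l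
    rw [norm_mul]
    calc ‖(r : ℂ)‖ * ‖ζ l‖ ≤ ‖(r : ℂ)‖ * 1 := mul_le_mul_of_nonneg_left (hζ l) (norm_nonneg _)
      _ < 1 := by rw [mul_one]; exact hr1
  have h1 : (1 : ℝ) ∈ closure (Set.Ioo (0 : ℝ) 1) := by
    rw [closure_Ioo (by norm_num)]
    exact ⟨zero_le_one, le_refl 1⟩
  have h2 := closure_minimal hsub hclosed h1
  simp only [Set.mem_ofPred_eq, Complex.ofReal_one, one_mul] at h2
  exact h2

end Ctx

end

end Pool.Agent.B5.H69
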