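import Pool.Agent.Lib.MP_b5021c_nt.B.H69.I3B

/-!
# MP_b5021c_nt, row I3C, part 3: the inequality on the torus
-/

namespace Pool.Agent.B5.H69

open scoped LaurentPolynomial
open Pool.Agent.B5 Polynomial

noncomputable section

section Ctx

variable {O : Type} [CommRing O] [IsDomain O] [IsPrincipalIdealRing O] [Coef O]
  {P L : Type} [Fintype P] [DecidableEq P] [AddCommGroup L] [Module.Free ℤ L] [Module.Finite ℤ L]

/-- The set of the small factors whose port occurs in `a`. -/
def TT (phi : L →+ (P → ℤ)) (i0 : P) {κ : Type} [Fintype κ] (jj : κ → P)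
    (a : Ker (co phi i0)) : Finset κ :=
  open Classical in Finset.univ.filter fun l => mK phi i0 (jj l) a ≠ 0

/-- The coefficient functions. -/
def cT (phi : L →+ (P → ℤ)) (i0 : P) {κ : Type} [Fintype κ] (jj : κ → P)
    (Z : Finset P) (u : AddChar (Ker (co phi i0)) Circle) (z : Circle)
    (G : AO O (Ker (co phi i0))) (T : Finset κ) : ℂ :=
  ln z (fun a => ind (mK phi i0) Z a * (u a : ℂ) * (open Classical in if TT phi i0 jj a = T then 1 else 0)) G

omit [Fintype P] [DecidableEq P] [Module.Free ℤ L] [Module.Finite ℤ L] [IsDomain O]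
  [IsPrincipalIdealRing O] in
theorem mae_cT (phi : L →+ (P → ℤ)) (i0 : P) (lam : L →+ ℤ) {κ : Type} [Fintype κ] (jj : κ → P)
    (Z : Finset P) (u : AddChar (Ker (co phi i0)) Circle) (z : Circle)
    (G : AO O (Ker (co phi i0))) (hG : ∀ a ∈ supp G, ∀ l, mK phi i0 (jj l) a = 0 ∨
      mK phi i0 (jj l) a = 1) (ζ : κ → ℂ) :
    mae (cT phi i0 jj Z u z G) ζ = ln z (wt phi i0 lam jj Z u 1 ζ) G := by
  classical
  unfold mae cT
  have h1 : ∀ T : Finset κ,
      ln z (fun a => ind (mK phi i0) Z a * (u a : ℂ) * (if TT phi i0 jj a = T then 1 else 0)) G *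
        ∏ i ∈ T, ζ i = ln z (fun a => (∏ i ∈ T, ζ i) *
          (ind (mK phi i0) Z a * (u a : ℂ) * (if TT phi i0 jj a = T then 1 else 0))) G := by
    intro T
    rw [ln_wmul]
    ring
  rw [Finset.sum_congr rfl (fun T _ => h1 T), ← ln_wsum]
  apply ln_congr
  intro a ha
  unfold wt
  have h2 : ∏ l, ζ l ^ (mK phi i0 (jj l) a).toNat = ∏ l ∈ TT phi i0 jj a, ζ l := by
    unfold TT
    rw [Finset.prod_filter]
    apply Finset.prod_congr rfl
    intro l _
    rcases hG a ha l with h3 | h3
    · rw [h3, if_neg (by simp)]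
      simp
    · rw [h3, if_pos (by norm_num)]
      simp
  rw [h2, one_pow, one_mul, Finset.sum_eq_single (TT phi i0 jj a)]
  · rw [if_pos rfl]
    ring
  · intro T _ hT
    rw [if_neg (fun h => hT h.symm)]
    ring
  · intro h3
    exact absurd (Finset.mem_univ _) h3

/-- The weight `ind * u`. -/
def kw (phi : L →+ (P → ℤ)) (i0 : P) (Z : Finset P) (u : AddChar (Ker (co phi i0)) Circle)
    (a : Ker (co phi i0)) : ℂ := ind (mK phi i0) Z a * (u a : ℂ)

omit [Fintype P] [DecidableEq P] [Module.Free ℤ L] [Module.Finite ℤ L] in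
theorem kw_zero (phi : L →+ (P → ℤ)) (i0 : P) (Z : Finset P)
    (u : AddChar (Ker (co phi i0)) Circle) : kw phi i0 Z u 0 = 1 := by
  unfold kw
  rw [ind_zero, AddChar.map_zero_eq_one, Circle.coe_one, one_mul]

omit [Fintype P] [DecidableEq P] [Module.Free ℤ L] [Module.Finite ℤ L] in
theorem kw_add (phi : L →+ (P → ℤ)) (i0 : P) (Z : Finset P)
    (u : AddChar (Ker (co phi i0)) Circle) (a b : Ker (co phi i0)) (ha : a ∈ NN (mK phi i0) Z)
    (hb : b ∈ NN (mK phi i0) Z) : kw phi i0 Z u (a + b) = kw phi i0 Z u a * kw phi i0 Z u b := by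
  unfold kw
  rw [ind_add _ _ a b ha hb, AddChar.map_add_eq_mul, Circle.coe_mul]
  ring

omit [Fintype P] [Module.Free ℤ L] [Module.Finite ℤ L] [IsDomain O] [IsPrincipalIdealRing O] in
theorem cT_empty (phi : L →+ (P → ℤ)) (i0 : P) {κ : Type} [Fintype κ] (jj : κ → P)
    (Z : Finset P) (u : AddChar (Ker (co phi i0)) Circle) (z : Circle)
    (G : AO O (Ker (co phi i0))) :
    cT phi i0 jj Z u z G ∅ = ln z (kw phi i0 (Finset.univ.image jj ∪ Z) u) G := by
  classical
  unfold cT
  apply ln_congr
  intro a _
  unfold kw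
  by_cases h1 : TT phi i0 jj a = ∅
  · rw [if_pos h1, mul_one]
    congr 1
    by_cases h2 : ∀ j ∈ Z, mK phi i0 j a = 0
    · rw [ind_pos h2, ind_pos]
      intro j hj
      rcases Finset.mem_union.mp hj with h3 | h3
      · obtain ⟨l, _, rfl⟩ := Finset.mem_image.mp h3
        by_contra h4
        have h5 : l ∈ TT phi i0 jj a := Finset.mem_filter.mpr ⟨Finset.mem_univ _, h4⟩
        rw [h1] at h5
        exact Finset.notMem_empty _ h5
      · exact h2 j h3
    · push Not at h2
      obtain ⟨j, hj, hne⟩ := h2
      rw [ind_neg hj hne, ind_neg (Finset.mem_union_right _ hj) hne]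
  · rw [if_neg h1, mul_zero]
    obtain ⟨l, hl⟩ := Finset.nonempty_iff_ne_empty.mpr h1
    have h2 := (Finset.mem_filter.mp hl).2
    rw [ind_neg (Finset.mem_union_left _ (Finset.mem_image_of_mem jj (Finset.mem_univ l))) h2,
      zero_mul]

omit [Fintype P] [Module.Free ℤ L] [Module.Finite ℤ L] [IsDomain O] [IsPrincipalIdealRing O] in
theorem cT_single (phi : L →+ (P → ℤ)) (i0 : P) {κ : Type} [Fintype κ] [DecidableEq κ]
    (jj : κ → P) (hinj : Function.Injective jj) (Z : Finset P) (hZ : ∀ l, jj l ∉ Z)
    (u : AddChar (Ker (co phi i0)) Circle) (z : Circle)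
    (G : AO O (Ker (co phi i0))) (l : κ) :
    cT phi i0 jj Z u z G {l} =
      ln z (kw phi i0 ((Finset.univ.image jj ∪ Z).erase (jj l)) u) G -
      ln z (kw phi i0 (Finset.univ.image jj ∪ Z) u) G := by
  classical
  rw [← cT_empty, eq_sub_iff_add_eq]
  unfold cT
  rw [← ln_wadd]
  apply ln_congr
  intro a _
  unfold kw
  have hkey : ind (mK phi i0) ((Finset.univ.image jj ∪ Z).erase (jj l)) a =
      ind (mK phi i0) Z a * ((if TT phi i0 jj a = {l} then 1 else 0) +
        (if TT phi i0 jj a = ∅ then 1 else 0)) := by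
    by_cases h2 : ∀ j ∈ Z, mK phi i0 j a = 0
    · rw [ind_pos h2, one_mul]
      by_cases h3 : ∀ l', l' ≠ l → mK phi i0 (jj l') a = 0
      · rw [ind_pos]
        · by_cases h4 : mK phi i0 (jj l) a = 0
          · have h5 : TT phi i0 jj a = ∅ := by
              rw [← Finset.not_nonempty_iff_eq_empty]
              rintro ⟨l', hl'⟩
              apply (Finset.mem_filter.mp hl').2
              by_cases h6 : l' = l
              · rw [h6]; exact h4
              · exact h3 l' h6
            rw [h5, if_neg (by exact (Finset.singleton_ne_empty l).symm), if_pos rfl, zero_add]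
          · have h5 : TT phi i0 jj a = {l} := by
              apply Finset.ext
              intro l'
              rw [Finset.mem_singleton]
              constructor
              · intro hl'
                by_contra h6
                exact (Finset.mem_filter.mp hl').2 (h3 l' h6)
              · intro h6
                rw [h6]
                exact Finset.mem_filter.mpr ⟨Finset.mem_univ _, h4⟩
            rw [h5, if_pos rfl, if_neg (Finset.singleton_ne_empty l), add_zero]
        · intro j hj
          obtain ⟨hj1, hj2⟩ := Finset.mem_erase.mp hj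
          rcases Finset.mem_union.mp hj2 with h4 | h4
          · obtain ⟨l', _, rfl⟩ := Finset.mem_image.mp h4
            exact h3 l' (fun h5 => hj1 (by rw [h5]))
          · exact h2 j h4
      · push Not at h3
        obtain ⟨l', hl', hne⟩ := h3
        have h4 : l' ∈ TT phi i0 jj a := Finset.mem_filter.mpr ⟨Finset.mem_univ _, hne⟩
        rw [ind_neg (Finset.mem_erase.mpr ⟨fun h5 => hl' (hinj h5), Finset.mem_union_left _
          (Finset.mem_image_of_mem jj (Finset.mem_univ l'))⟩) hne, if_neg, if_neg, add_zero]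
        · intro h5
          rw [h5] at h4
          exact Finset.notMem_empty _ h4
        · intro h5
          rw [h5, Finset.mem_singleton] at h4
          exact hl' h4
    · push Not at h2
      obtain ⟨j, hj, hne⟩ := h2
      rw [ind_neg hj hne, zero_mul]
      apply ind_neg (j := j) _ hne
      rw [Finset.mem_erase]
      refine ⟨?_, Finset.mem_union_right _ hj⟩
      intro h3
      rw [h3] at hj
      exact hZ l hj
  rw [hkey]
  ring_nf

end Ctx

end

end Pool.Agent.B5.H69
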