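import Pool.Agent.Lib.MP_b5021c_nt.B.H69.I3D

/-!
# MP_b5021c_nt, row I3C, part 4: the inequality on the torus
-/

namespace Pool.Agent.B5.H69

open scoped LaurentPolynomial
open Pool.Agent.B5 Polynomial

set_option linter.unusedSectionVars false

noncomputable section

section Ctx

variable {O : Type} [CommRing O] [IsDomain O] [IsPrincipalIdealRing O] [Coef O]
  {P L : Type} [Fintype P] [DecidableEq P] [AddCommGroup L] [Module.Free ℤ L] [Module.Finite ℤ L]

/-- The data of row I3C: the small non-pure factors with their rays, ports, values and quotients. -/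
structure Dat (phi : L →+ (P → ℤ)) (D : AO O L) (S : L) (i0 : P) (eta : (RO O)ˣ)
    (h : co phi i0 S = 1) (c : RO O) (n : ℕ) (G : Fin n → AO O (Ker (co phi i0)))
    (κ : Type) [Fintype κ] (ix : κ → Fin n) (b : κ → Ker (co phi i0)) (jj : κ → P)
    (e : κ → (RO O)ˣ) : Prop where
  fd : FD phi D S i0 eta h c n G
  ixi : Function.Injective ix
  spt : ∀ l, Spt phi S i0 G (ix l) (b l) (jj l) (e l)

variable {phi : L →+ (P → ℤ)} {D : AO O L} {S : L} {i0 : P} {eta : (RO O)ˣ}
    {h : co phi i0 S = 1} {c : RO O} {n : ℕ} {G : Fin n → AO O (Ker (co phi i0))}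
    {κ : Type} [Fintype κ] {ix : κ → Fin n} {b : κ → Ker (co phi i0)} {jj : κ → P}
    {e : κ → (RO O)ˣ}

theorem Dat.b_ne (hd : Dat phi D S i0 eta h c n G κ ix b jj e) (l : κ) : b l ≠ 0 := by
  intro h0
  have h1 := (hd.spt l).bj
  rw [h0] at h1
  simp at h1

theorem Dat.coeff_b (hd : Dat phi D S i0 eta h c n G κ ix b jj e) (l : κ) :
    b l ∈ supp (G (ix l)) := by
  classical
  change (G (ix l)).coeff (b l) ≠ 0
  have h1 := (hd.spt l).eq
  have h2 : (G (ix l)).coeff (b l) = -((G (ix l)).coeff 0 * (((e l)⁻¹ : (RO O)ˣ) : RO O)) := by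
    conv_lhs => rw [h1]
    rw [mul_sub, mul_one, AddMonoidAlgebra.coeff_sub, cst, AddMonoidAlgebra.single_mul_single,
      Finsupp.sub_apply, AddMonoidAlgebra.coeff_single, AddMonoidAlgebra.coeff_single,
      Finsupp.single_apply, if_neg (fun h3 => hd.b_ne l h3.symm), zero_add, Finsupp.single_eq_same,
      zero_sub]
  rw [h2, neg_ne_zero]
  exact mul_ne_zero (hd.spt l).u0.ne_zero (Units.ne_zero _)

theorem Dat.ww (hd : Dat phi D S i0 eta h c n G κ ix b jj e) (i : Fin n) (a : Ker (co phi i0))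
    (ha : a ∈ supp (G i)) (j : P) (hj : j ∈ OO phi S) : phi (a : L) j = 0 ∨ phi (a : L) j = 1 :=
  (hd.fd.ww i a ha).1 j hj

theorem Dat.b_other (hd : Dat phi D S i0 eta h c n G κ ix b jj e) (l l' : κ) (hl : l ≠ l') :
    phi ((b l : Ker (co phi i0)) : L) (jj l') = 0 :=
  (hd.spt l').other (ix l) (fun h1 => hl (hd.ixi h1)) (b l) (hd.coeff_b l)

theorem Dat.jj_inj (hd : Dat phi D S i0 eta h c n G κ ix b jj e) : Function.Injective jj := by
  intro l l' hll
  by_contra hne
  have h1 := hd.b_other l l' hne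
  rw [← hll] at h1
  have h2 := (hd.spt l).bj
  rw [h1] at h2
  exact absurd h2 (by norm_num)

/-- The ports outside all rays. -/
def Z0 (phi : L →+ (P → ℤ)) (S : L) (i0 : P) (b : κ → Ker (co phi i0)) : Finset P :=
  open Classical in (OO phi S).filter fun j => ∀ l, phi ((b l : Ker (co phi i0)) : L) j = 0

/-- All killed ports. -/
def Zf (phi : L →+ (P → ℤ)) (S : L) (i0 : P) (b : κ → Ker (co phi i0)) (jj : κ → P) : Finset P :=
  Finset.univ.image jj ∪ Z0 phi S i0 b

theorem Dat.Zf_sub (hd : Dat phi D S i0 eta h c n G κ ix b jj e) (j : P)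
    (hj : j ∈ Zf phi S i0 b jj) : j ∈ OO phi S := by
  rcases Finset.mem_union.mp hj with h1 | h1
  · obtain ⟨l, _, rfl⟩ := Finset.mem_image.mp h1
    exact (hd.spt l).jO
  · exact (Finset.mem_filter.mp h1).1

theorem Dat.jj_nZ0 (hd : Dat phi D S i0 eta h c n G κ ix b jj e) (l : κ) :
    jj l ∉ Z0 phi S i0 b := by
  intro h1
  have h2 := (Finset.mem_filter.mp h1).2 l
  rw [(hd.spt l).bj] at h2
  exact absurd h2 (by norm_num)

theorem Dat.b_Zl (hd : Dat phi D S i0 eta h c n G κ ix b jj e) (l : κ) (j : P)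
    (hj : j ∈ (Zf phi S i0 b jj).erase (jj l)) : phi ((b l : Ker (co phi i0)) : L) j = 0 := by
  obtain ⟨h1, h2⟩ := Finset.mem_erase.mp hj
  rcases Finset.mem_union.mp h2 with h3 | h3
  · obtain ⟨l', _, rfl⟩ := Finset.mem_image.mp h3
    exact hd.b_other l l' (fun h4 => h1 (by rw [h4]))
  · exact (Finset.mem_filter.mp h3).2 l

theorem Dat.G_NN (hd : Dat phi D S i0 eta h c n G κ ix b jj e) (Z : Finset P)
    (hZ : ∀ j ∈ Z, j ∈ OO phi S) (i : Fin n) (a : Ker (co phi i0)) (ha : a ∈ supp (G i)) :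
    a ∈ NN (mK phi i0) Z := by
  intro j hj
  rcases hd.ww i a ha j (hZ j hj) with h1 | h1
  · rw [mK_apply, h1]
  · rw [mK_apply, h1]; norm_num

/-- Values of a small non-pure factor. -/
theorem Dat.val_f (hd : Dat phi D S i0 eta h c n G κ ix b jj e) (l : κ)
    (u : AddChar (Ker (co phi i0)) Circle) (z : Circle) (Z : Finset P) :
    ln z (kw phi i0 Z u) (G (ix l)) = evR z ((G (ix l)).coeff 0) *
      (1 - evR z (((e l)⁻¹ : (RO O)ˣ) : RO O) * kw phi i0 Z u (b l)) := by
  conv_lhs => rw [(hd.spt l).eq]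
  rw [mul_sub, mul_one, ln_sub, cst, AddMonoidAlgebra.single_mul_single, ln_single, ln_single,
    zero_add, kw_zero, map_mul]
  ring

/-- The value of the closed element. -/
theorem Dat.val_V (hd : Dat phi D S i0 eta h c n G κ ix b jj e)
    (u : AddChar (Ker (co phi i0)) Circle) (z : Circle) (Z : Finset P)
    (hZ : ∀ j ∈ Z, j ∈ OO phi S) :
    ln z (kw phi i0 Z u) (cl (co phi i0) S h eta D) =
      evR z c * ∏ i, ln z (kw phi i0 Z u) (G i) := by
  classical
  have h1 := ln_prod z (kw phi i0 Z u) (NN (mK phi i0) Z) (kw_zero phi i0 Z u)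
    (fun a ha b hb => kw_add phi i0 Z u a b ha hb) Finset.univ G (fun i _ a ha => hd.G_NN Z hZ i a ha)
  rw [hd.fd.eq, ln_mul, h1.2, ln_cst z _ (kw_zero phi i0 Z u)]
  intro a ha a' ha'
  have h2 : a = 0 := by
    by_contra h3
    apply ha
    change (AddMonoidAlgebra.single (0 : Ker (co phi i0)) c).coeff a = 0
    rw [AddMonoidAlgebra.coeff_single, Finsupp.single_apply, if_neg (fun h4 => h3 h4.symm)]
  rw [h2, zero_add, kw_zero, one_mul]

/-- Killing one port less does not change the other factors. -/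
theorem Dat.val_i (hd : Dat phi D S i0 eta h c n G κ ix b jj e) (l : κ) (i : Fin n)
    (hi : i ≠ ix l) (u : AddChar (Ker (co phi i0)) Circle) (z : Circle) :
    ln z (kw phi i0 ((Zf phi S i0 b jj).erase (jj l)) u) (G i) =
      ln z (kw phi i0 (Zf phi S i0 b jj) u) (G i) := by
  apply ln_congr
  intro a ha
  unfold kw
  congr 1
  have h1 : mK phi i0 (jj l) a = 0 := (hd.spt l).other i hi a ha
  by_cases h2 : ∀ j ∈ (Zf phi S i0 b jj).erase (jj l), mK phi i0 j a = 0
  · rw [ind_pos h2, ind_pos]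
    intro j hj
    by_cases h3 : j = jj l
    · rw [h3]; exact h1
    · exact h2 j (Finset.mem_erase.mpr ⟨h3, hj⟩)
  · push Not at h2
    obtain ⟨j, hj, hne⟩ := h2
    rw [ind_neg hj hne, ind_neg (Finset.mem_of_mem_erase hj) hne]

end Ctx

end

end Pool.Agent.B5.H69
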