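import Pool.Agent.Lib.MP_b5021c_nt.B.H69.I3E

/-!
# MP_b5021c_nt, row I3C, part 5: the inequality on the torus
-/

namespace Pool.Agent.B5.H69

open scoped LaurentPolynomial
open Pool.Agent.B5 Polynomial

set_option linter.unusedSectionVars false

noncomputable section

section Ctx

variable {O : Type} [CommRing O] [IsDomain O] [IsPrincipalIdealRing O] [Coef O]
  {P L : Type} [Fintype P] [DecidableEq P] [AddCommGroup L] [Module.Free ℤ L] [Module.Finite ℤ L]

variable {phi : L →+ (P → ℤ)} {D : AO O L} {S : L} {i0 : P} {eta : (RO O)ˣ}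
    {h : co phi i0 S = 1} {c : RO O} {n : ℕ} {G : Fin n → AO O (Ker (co phi i0))}
    {κ : Type} [Fintype κ] {ix : κ → Fin n} {b : κ → Ker (co phi i0)} {jj : κ → P}
    {e : κ → (RO O)ˣ}

/-- The value of `X` on `x_l = 1`. -/
theorem Dat.val_X (hd : Dat phi D S i0 eta h c n G κ ix b jj e) (l : κ)
    (hj : co (phK phi (co phi i0)) (jj l) (b l) = 1) (u : AddChar (Ker (co phi i0)) Circle) (z : Circle) :
    ln z (fun a : Ker (co (phK phi (co phi i0)) (jj l)) =>
        kw phi i0 ((Zf phi S i0 b jj).erase (jj l)) u (a : Ker (co phi i0)))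
      (Xl phi D i0 (b l) (jj l) hj (e l)) =
    ln z (kw phi i0 (Zf phi S i0 b jj) u) (res (Ker (co phi i0)) D) +
      evR z (e l : RO O) * (u (b l) : ℂ)⁻¹ *
        (ln z (kw phi i0 ((Zf phi S i0 b jj).erase (jj l)) u) (res (Ker (co phi i0)) D) -
          ln z (kw phi i0 (Zf phi S i0 b jj) u) (res (Ker (co phi i0)) D)) := by
  classical
  unfold Xl
  rw [ln_cl]
  have h1 : ∀ a ∈ supp (res (Ker (co phi i0)) D),
      evR z ((e l ^ ((co (phK phi (co phi i0)) (jj l)) a) : (RO O)ˣ) : RO O) *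
        kw phi i0 ((Zf phi S i0 b jj).erase (jj l)) u
          ((prj (co (phK phi (co phi i0)) (jj l)) (b l) hj a :
            Ker (co (phK phi (co phi i0)) (jj l))) : Ker (co phi i0)) =
      kw phi i0 (Zf phi S i0 b jj) u a + evR z (e l : RO O) * (u (b l) : ℂ)⁻¹ *
        (kw phi i0 ((Zf phi S i0 b jj).erase (jj l)) u a + (-1) *
          kw phi i0 (Zf phi S i0 b jj) u a) := by
    intro a ha
    have hbin : phi (a : L) (jj l) = 0 ∨ phi (a : L) (jj l) = 1 := hd.fd.cc.dd.bin (a : L) ha (jj l)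
    have hco : (co (phK phi (co phi i0)) (jj l)) a = phi (a : L) (jj l) := rfl
    rw [prj_coe, hco]
    have hb : ∀ m : ℤ, ind (mK phi i0) ((Zf phi S i0 b jj).erase (jj l)) (a - m • b l) =
        ind (mK phi i0) ((Zf phi S i0 b jj).erase (jj l)) a := by
      intro m
      have h3 : ∀ j ∈ (Zf phi S i0 b jj).erase (jj l), mK phi i0 j (a - m • b l) = mK phi i0 j a := by
        intro j hj
        have h4 : mK phi i0 j (b l) = 0 := hd.b_Zl l j hj
        rw [map_sub, map_zsmul, h4, smul_zero, sub_zero]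
      unfold ind
      have h5 : (∀ j ∈ (Zf phi S i0 b jj).erase (jj l), mK phi i0 j (a - m • b l) = 0) ↔
          (∀ j ∈ (Zf phi S i0 b jj).erase (jj l), mK phi i0 j a = 0) :=
        ⟨fun h6 j hj => by rw [← h3 j hj]; exact h6 j hj, fun h6 j hj => by rw [h3 j hj]; exact h6 j hj⟩
      by_cases h6 : ∀ j ∈ (Zf phi S i0 b jj).erase (jj l), mK phi i0 j a = 0
      · rw [if_pos h6, if_pos (h5.mpr h6)]
      · rw [if_neg h6, if_neg (fun h7 => h6 (h5.mp h7))]
    have hmem : jj l ∈ Zf phi S i0 b jj :=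
      Finset.mem_union_left _ (Finset.mem_image_of_mem jj (Finset.mem_univ l))
    rcases hbin with h0 | h0
    · rw [h0, zpow_zero, Units.val_one, map_one, zero_smul, sub_zero]
      have h2 : kw phi i0 ((Zf phi S i0 b jj).erase (jj l)) u a = kw phi i0 (Zf phi S i0 b jj) u a := by
        unfold kw
        congr 1
        by_cases h3 : ∀ j ∈ (Zf phi S i0 b jj).erase (jj l), mK phi i0 j a = 0
        · rw [ind_pos h3, ind_pos]
          intro j hj
          by_cases h4 : j = jj l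
          · rw [h4]; exact h0
          · exact h3 j (Finset.mem_erase.mpr ⟨h4, hj⟩)
        · push Not at h3
          obtain ⟨j, hj, hne⟩ := h3
          rw [ind_neg hj hne, ind_neg (Finset.mem_of_mem_erase hj) hne]
      rw [h2]
      ring
    · rw [h0, zpow_one]
      have h2 : kw phi i0 (Zf phi S i0 b jj) u a = 0 := by
        unfold kw
        rw [ind_neg hmem (by rw [mK_apply, h0]; norm_num), zero_mul]
      rw [h2]
      have h3 : kw phi i0 ((Zf phi S i0 b jj).erase (jj l)) u (a - (1 : ℤ) • b l) =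
          kw phi i0 ((Zf phi S i0 b jj).erase (jj l)) u a * (u (b l) : ℂ)⁻¹ := by
        unfold kw
        rw [hb, one_smul, AddChar.map_sub_eq_div, Circle.coe_div]
        rw [div_eq_mul_inv]
        ring
      rw [h3]
      ring
  rw [ln_congr z h1, ln_wadd, ln_wmul, ln_wadd, ln_wmul]
  ring

/-- The value of the factorisation of `X` on `x_l = 1`. -/
theorem Dat.val_q (hd : Dat phi D S i0 eta h c n G κ ix b jj e) (l : κ)
    (q : AO O (Ker (co (phK phi (co phi i0)) (jj l))))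
    (hq : ∀ a ∈ supp q, ∀ j' ∈ OO phi S, phi ((b l : Ker (co phi i0)) : L) j' = 0 →
      phi ((a : Ker (co phi i0)) : L) j' = 0)
    (u : AddChar (Ker (co phi i0)) Circle) (z : Circle) :
    ln z (fun a : Ker (co (phK phi (co phi i0)) (jj l)) =>
        kw phi i0 ((Zf phi S i0 b jj).erase (jj l)) u (a : Ker (co phi i0)))
      (q * ∏ i ∈ Finset.univ.erase (ix l), res (Ker (co (phK phi (co phi i0)) (jj l))) (G i)) =
    ln z (fun a : Ker (co (phK phi (co phi i0)) (jj l)) => (u (a : Ker (co phi i0)) : ℂ)) q *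
      ∏ i ∈ Finset.univ.erase (ix l), ln z (kw phi i0 (Zf phi S i0 b jj) u) (G i) := by
  classical
  have hZl : ∀ j ∈ (Zf phi S i0 b jj).erase (jj l), j ∈ OO phi S := fun j hj =>
    hd.Zf_sub j (Finset.mem_of_mem_erase hj)
  -- the submonoid
  let Q : AddSubmonoid (Ker (co (phK phi (co phi i0)) (jj l))) :=
    (NN (mK phi i0) ((Zf phi S i0 b jj).erase (jj l))).comap
      (incl (Ker (co (phK phi (co phi i0)) (jj l))) : _ →+ Ker (co phi i0))
  have hw0 : kw phi i0 ((Zf phi S i0 b jj).erase (jj l)) u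
      ((0 : Ker (co (phK phi (co phi i0)) (jj l))) : Ker (co phi i0)) = 1 := kw_zero _ _ _ _
  have hw : ∀ a ∈ Q, ∀ a' ∈ Q, kw phi i0 ((Zf phi S i0 b jj).erase (jj l)) u
      ((a + a' : Ker (co (phK phi (co phi i0)) (jj l))) : Ker (co phi i0)) =
      kw phi i0 ((Zf phi S i0 b jj).erase (jj l)) u (a : Ker (co phi i0)) *
      kw phi i0 ((Zf phi S i0 b jj).erase (jj l)) u (a' : Ker (co phi i0)) :=
    fun a ha a' ha' => kw_add _ _ _ _ _ _ ha ha'
  have hres : ∀ i ∈ Finset.univ.erase (ix l),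
      ∀ a ∈ supp (res (Ker (co (phK phi (co phi i0)) (jj l))) (G i)), a ∈ Q := by
    intro i _ a ha
    exact hd.G_NN _ hZl i (a : Ker (co phi i0)) ha
  have h1 := ln_prod z (fun a : Ker (co (phK phi (co phi i0)) (jj l)) =>
        kw phi i0 ((Zf phi S i0 b jj).erase (jj l)) u (a : Ker (co phi i0))) Q hw0 hw
    (Finset.univ.erase (ix l))
    (fun i => res (Ker (co (phK phi (co phi i0)) (jj l))) (G i)) hres
  have hqQ : ∀ a ∈ supp q, a ∈ Q := by
    intro a ha j hj
    have h2 := hq a ha j (hZl j hj) (hd.b_Zl l j hj)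
    change 0 ≤ phi ((a : Ker (co phi i0)) : L) j
    rw [h2]
  rw [ln_mul z _ _ _ (fun a ha a' ha' => hw a (hqQ a ha) a' (h1.1 a' ha')), h1.2]
  congr 1
  · apply ln_congr
    intro a ha
    unfold kw
    rw [ind_pos, one_mul]
    intro j hj
    exact hq a ha j (hZl j hj) (hd.b_Zl l j hj)
  · apply Finset.prod_congr rfl
    intro i hi
    have hne : i ≠ ix l := (Finset.mem_erase.mp hi).1
    rw [ln_res z (Ker (co (phK phi (co phi i0)) (jj l)))
      (fun a => kw phi i0 ((Zf phi S i0 b jj).erase (jj l)) u a) (G i), ← hd.val_i l i hne]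
    apply ln_congr
    intro a ha
    rw [if_pos]
    exact (hd.spt l).other i hne a ha

/-- The inequality on the torus. -/
theorem Dat.torus (hA4 : A4S) (hMul : MultiS) (hSt : StSpecS) (hEv : EvRS)
    (hd : Dat phi D S i0 eta h c n G κ ix b jj e)
    (q : ∀ l, AO O (Ker (co (phK phi (co phi i0)) (jj l))))
    (hj : ∀ l, co (phK phi (co phi i0)) (jj l) (b l) = 1)
    (hX : ∀ l, Xl phi D i0 (b l) (jj l) (hj l) (e l) =
      q l * ∏ i ∈ Finset.univ.erase (ix l), res (Ker (co (phK phi (co phi i0)) (jj l))) (G i))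
    (hq : ∀ l, ∀ a ∈ supp (q l), ∀ j' ∈ OO phi S, phi ((b l : Ker (co phi i0)) : L) j' = 0 →
      phi ((a : Ker (co phi i0)) : L) j' = 0)
    (hV : ∀ a ∈ supp (cl (co phi i0) S h eta D), ∀ j ∈ OO phi S,
      phi (a : L) j = 0 ∨ phi (a : L) j = 1)
    (lam : L →+ ℤ) (hlS : lam S = 0) (hlam : ∀ a ∈ supp D, a ≠ 0 → a ≠ S → 0 < lam a)
    (z : Circle) (hz : evR z (D.coeff 0) ≠ 0) (hcz : evR z c ≠ 0)
    (u : AddChar (Ker (co phi i0)) Circle) :
    (∑ l, ‖ln z (fun a : Ker (co (phK phi (co phi i0)) (jj l)) =>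
        (u (a : Ker (co phi i0)) : ℂ)) (q l)‖) *
      ∏ i ∈ Finset.univ.filter (fun i => ∀ l, ix l ≠ i),
        ‖ln z (kw phi i0 (Zf phi S i0 b jj) u) (G i)‖ ≤
      2 * ‖ln z (kw phi i0 (Zf phi S i0 b jj) u) (res (Ker (co phi i0)) D)‖ := by
  classical
  obtain ⟨hE1, hE2, hE3, hE4⟩ := hEv O
  set X := res (Ker (co phi i0)) D with hXd
  set V := cl (co phi i0) S h eta D with hVd
  have hjO : ∀ l, jj l ∈ OO phi S := fun l => (hd.spt l).jO
  have hXb : ∀ a ∈ supp X, ∀ l, mK phi i0 (jj l) a = 0 ∨ mK phi i0 (jj l) a = 1 :=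
    fun a ha l => hd.fd.cc.dd.bin (a : L) ha (jj l)
  have hVb : ∀ a ∈ supp V, ∀ l, mK phi i0 (jj l) a = 0 ∨ mK phi i0 (jj l) a = 1 :=
    fun a ha l => hV a ha (jj l) (hjO l)
  have hZ0 : ∀ j ∈ Z0 phi S i0 b, j ∈ OO phi S := fun j hj => (Finset.mem_filter.mp hj).1
  -- Schwarz-Pick
  have hSP := schwarz_pick hA4 (cT phi i0 jj (Z0 phi S i0 b) u z X)
    (fun T => cT phi i0 jj (Z0 phi S i0 b) u z V T - cT phi i0 jj (Z0 phi S i0 b) u z X T) (by
      intro ζ hζ
      have h1 : mae (fun T => cT phi i0 jj (Z0 phi S i0 b) u z V T -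
          cT phi i0 jj (Z0 phi S i0 b) u z X T) ζ =
          mae (cT phi i0 jj (Z0 phi S i0 b) u z V) ζ - mae (cT phi i0 jj (Z0 phi S i0 b) u z X) ζ := by
        unfold mae
        rw [← Finset.sum_sub_distrib]
        apply Finset.sum_congr rfl
        intro T _
        ring
      rw [h1, mae_cT phi i0 lam jj _ u z V hVb, mae_cT phi i0 lam jj _ u z X hXb]
      exact lemB2 hMul hSt hEv phi D S i0 eta h hd.fd.cc.dd lam hlS hlam z hz jj hjO _ hZ0 u ζ hζ)
  simp only [cT_empty, cT_single phi i0 jj hd.jj_inj _ hd.jj_nZ0] at hSP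
  change ∑ l, ‖ln z (kw phi i0 (Zf phi S i0 b jj) u) X *
      ((ln z (kw phi i0 ((Zf phi S i0 b jj).erase (jj l)) u) V -
        ln z (kw phi i0 (Zf phi S i0 b jj) u) V) -
      (ln z (kw phi i0 ((Zf phi S i0 b jj).erase (jj l)) u) X -
        ln z (kw phi i0 (Zf phi S i0 b jj) u) X)) -
      (ln z (kw phi i0 (Zf phi S i0 b jj) u) V - ln z (kw phi i0 (Zf phi S i0 b jj) u) X) *
      (ln z (kw phi i0 ((Zf phi S i0 b jj).erase (jj l)) u) X -
        ln z (kw phi i0 (Zf phi S i0 b jj) u) X)‖ ≤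
      ‖ln z (kw phi i0 (Zf phi S i0 b jj) u) X‖ ^ 2 -
      ‖ln z (kw phi i0 (Zf phi S i0 b jj) u) V - ln z (kw phi i0 (Zf phi S i0 b jj) u) X‖ ^ 2 at hSP
  set xf := ln z (kw phi i0 (Zf phi S i0 b jj) u) X with hxf
  set vf := ln z (kw phi i0 (Zf phi S i0 b jj) u) V with hvf
  set Pi := ∏ i ∈ Finset.univ.filter (fun i => ∀ l, ix l ≠ i),
        ‖ln z (kw phi i0 (Zf phi S i0 b jj) u) (G i)‖ with hPi
  -- the killed values of the small factors have modulus one
  have hkb : ∀ l, kw phi i0 (Zf phi S i0 b jj) u (b l) = 0 := by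
    intro l
    have hmem : jj l ∈ Zf phi S i0 b jj :=
      Finset.mem_union_left _ (Finset.mem_image_of_mem jj (Finset.mem_univ l))
    have hne : mK phi i0 (jj l) (b l) ≠ 0 := by
      rw [mK_apply, (hd.spt l).bj]
      norm_num
    unfold kw
    rw [ind_neg hmem hne, zero_mul]
  have hkb2 : ∀ l, kw phi i0 ((Zf phi S i0 b jj).erase (jj l)) u (b l) = (u (b l) : ℂ) := by
    intro l
    unfold kw
    rw [ind_pos (fun j hj => hd.b_Zl l j hj), one_mul]
  have hval0 : ∀ l, ln z (kw phi i0 (Zf phi S i0 b jj) u) (G (ix l)) =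
      evR z ((G (ix l)).coeff 0) := by
    intro l
    rw [hd.val_f, hkb, mul_zero, sub_zero, mul_one]
  have hone : ∀ l, ‖ln z (kw phi i0 (Zf phi S i0 b jj) u) (G (ix l))‖ = 1 := by
    intro l
    rw [hval0]
    exact hE2 z _ (hd.spt l).u0
  have hPil : ∀ l, ∏ i ∈ Finset.univ.erase (ix l), ‖ln z (kw phi i0 (Zf phi S i0 b jj) u) (G i)‖ =
      Pi := by
    intro l
    symm
    apply Finset.prod_subset
    · intro i hi
      rw [Finset.mem_erase]
      exact ⟨fun h1 => (Finset.mem_filter.mp hi).2 l h1.symm, Finset.mem_univ _⟩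
    · intro i _ hi
      have h1 : ∃ l', ix l' = i := by
        by_contra hcon
        push Not at hcon
        exact hi (Finset.mem_filter.mpr ⟨Finset.mem_univ _, hcon⟩)
      obtain ⟨l', rfl⟩ := h1
      exact hone l'
  have hPiV : ‖vf‖ = ‖evR z c‖ * Pi := by
    rw [hvf, hd.val_V u z _ hd.Zf_sub, norm_mul, norm_prod]
    congr 1
    symm
    apply Finset.prod_subset (Finset.filter_subset _ _)
    intro i _ hi
    have h1 : ∃ l', ix l' = i := by
      by_contra hcon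
      push Not at hcon
      exact hi (Finset.mem_filter.mpr ⟨Finset.mem_univ _, hcon⟩)
    obtain ⟨l', rfl⟩ := h1
    exact hone l'
  -- the value of the closed element with one port less killed
  have hvl : ∀ l, ln z (kw phi i0 ((Zf phi S i0 b jj).erase (jj l)) u) V =
      vf * (1 - evR z (((e l)⁻¹ : (RO O)ˣ) : RO O) * (u (b l) : ℂ)) := by
    intro l
    rw [hvf, hd.val_V u z _ hd.Zf_sub,
      hd.val_V u z _ (fun j hj => hd.Zf_sub j (Finset.mem_of_mem_erase hj)),
      ← Finset.mul_prod_erase Finset.univ _ (Finset.mem_univ (ix l)),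
      ← Finset.mul_prod_erase Finset.univ (fun i => ln z (kw phi i0 (Zf phi S i0 b jj) u) (G i))
        (Finset.mem_univ (ix l)),
      Finset.prod_congr rfl (fun i hi => hd.val_i l i (Finset.mem_erase.mp hi).1 u z), hval0,
      hd.val_f, hkb2]
    ring
  -- the terms of the sum
  have hterm : ∀ l, ‖xf *
      ((ln z (kw phi i0 ((Zf phi S i0 b jj).erase (jj l)) u) V - vf) -
      (ln z (kw phi i0 ((Zf phi S i0 b jj).erase (jj l)) u) X - xf)) -
      (vf - xf) * (ln z (kw phi i0 ((Zf phi S i0 b jj).erase (jj l)) u) X - xf)‖ =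
      ‖vf‖ * (‖ln z (fun a : Ker (co (phK phi (co phi i0)) (jj l)) =>
        (u (a : Ker (co phi i0)) : ℂ)) (q l)‖ * Pi) := by
    intro l
    have h1 := hd.val_X l (hj l) u z
    rw [hX l, hd.val_q l (q l) (hq l) u z] at h1
    have h2 : evR z (((e l)⁻¹ : (RO O)ˣ) : RO O) * evR z (e l : RO O) = 1 := by
      rw [← map_mul, Units.inv_mul, map_one]
    have h3 : ‖evR z (((e l)⁻¹ : (RO O)ˣ) : RO O)‖ = 1 := hE2 z _ (Units.isUnit _)
    have h4 : ‖(u (b l) : ℂ)‖ = 1 := Circle.norm_coe _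
    have h5 : (u (b l) : ℂ) ≠ 0 := Circle.coe_ne_zero _
    have h6 : xf *
      ((ln z (kw phi i0 ((Zf phi S i0 b jj).erase (jj l)) u) V - vf) -
      (ln z (kw phi i0 ((Zf phi S i0 b jj).erase (jj l)) u) X - xf)) -
      (vf - xf) * (ln z (kw phi i0 ((Zf phi S i0 b jj).erase (jj l)) u) X - xf) =
      -(vf * (evR z (((e l)⁻¹ : (RO O)ˣ) : RO O) * (u (b l) : ℂ) *
        (ln z (fun a : Ker (co (phK phi (co phi i0)) (jj l)) =>
          (u (a : Ker (co phi i0)) : ℂ)) (q l) *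
        ∏ i ∈ Finset.univ.erase (ix l), ln z (kw phi i0 (Zf phi S i0 b jj) u) (G i)))) := by
      rw [h1, hvl l]
      have h7 : evR z (((e l)⁻¹ : (RO O)ˣ) : RO O) * (u (b l) : ℂ) *
          (xf + evR z (e l : RO O) * (u (b l) : ℂ)⁻¹ *
            (ln z (kw phi i0 ((Zf phi S i0 b jj).erase (jj l)) u) X - xf)) =
          evR z (((e l)⁻¹ : (RO O)ˣ) : RO O) * (u (b l) : ℂ) * xf +
            (ln z (kw phi i0 ((Zf phi S i0 b jj).erase (jj l)) u) X - xf) := by
        rw [mul_add]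
        congr 1
        calc evR z (((e l)⁻¹ : (RO O)ˣ) : RO O) * (u (b l) : ℂ) *
            (evR z (e l : RO O) * (u (b l) : ℂ)⁻¹ *
              (ln z (kw phi i0 ((Zf phi S i0 b jj).erase (jj l)) u) X - xf)) =
            (evR z (((e l)⁻¹ : (RO O)ˣ) : RO O) * evR z (e l : RO O)) *
              ((u (b l) : ℂ) * (u (b l) : ℂ)⁻¹) *
              (ln z (kw phi i0 ((Zf phi S i0 b jj).erase (jj l)) u) X - xf) := by ring
          _ = _ := by rw [h2, mul_inv_cancel₀ h5]; ring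
      rw [h7]
      ring
    rw [h6, norm_neg, norm_mul, norm_mul, norm_mul, norm_mul, norm_prod, h3, h4, hPil]
    ring
  rw [Finset.sum_congr rfl (fun l _ => hterm l), ← Finset.mul_sum, ← Finset.sum_mul] at hSP
  -- the right side
  have hw0 : ‖vf - xf‖ ≤ ‖xf‖ := by
    have h1 := lemB2 hMul hSt hEv phi D S i0 eta h hd.fd.cc.dd lam hlS hlam z hz
      (κ := Empty) (fun l => l.elim) (fun l => l.elim) (Zf phi S i0 b jj) hd.Zf_sub u
      (fun l => l.elim) (fun l => l.elim)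
    have h2 : wt phi i0 lam (κ := Empty) (fun l => l.elim) (Zf phi S i0 b jj) u 1 (fun l => l.elim) =
        kw phi i0 (Zf phi S i0 b jj) u := by
      funext a
      unfold wt kw
      simp
    rw [h2] at h1
    exact h1
  have hfin : ‖xf‖ ^ 2 - ‖vf - xf‖ ^ 2 ≤ ‖vf‖ * (2 * ‖xf‖) := by
    have h1 : ‖xf‖ - ‖vf - xf‖ ≤ ‖vf‖ := by
      have h2 : ‖xf‖ ≤ ‖vf‖ + ‖vf - xf‖ := by
        calc ‖xf‖ = ‖vf - (vf - xf)‖ := by congr 1; ring
          _ ≤ ‖vf‖ + ‖vf - xf‖ := norm_sub_le _ _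
      linarith
    have h3 : ‖xf‖ + ‖vf - xf‖ ≤ 2 * ‖xf‖ := by linarith
    have h4 : 0 ≤ ‖xf‖ + ‖vf - xf‖ := by positivity
    calc ‖xf‖ ^ 2 - ‖vf - xf‖ ^ 2 = (‖xf‖ - ‖vf - xf‖) * (‖xf‖ + ‖vf - xf‖) := by ring
      _ ≤ ‖vf‖ * (‖xf‖ + ‖vf - xf‖) := mul_le_mul_of_nonneg_right h1 h4
      _ ≤ ‖vf‖ * (2 * ‖xf‖) := mul_le_mul_of_nonneg_left h3 (norm_nonneg _)
  have hall := hSP.trans hfin
  by_cases hv0 : vf = 0
  · have h1 : Pi = 0 := by
      rw [hv0, norm_zero] at hPiV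
      rcases mul_eq_zero.mp hPiV.symm with h2 | h2
      · exact absurd h2 (norm_ne_zero_iff.mpr hcz)
      · exact h2
    rw [h1, mul_zero]
    positivity
  · exact le_of_mul_le_mul_left hall (norm_pos_iff.mpr hv0)

end Ctx

end

end Pool.Agent.B5.H69
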