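import Pool.Agent.Lib.MP_b5021c_nt.B.H69.I3F

/-!
# MP_b5021c_nt, row I3C, part 6: Mahler measure along `t ↦ t^lam`
-/

namespace Pool.Agent.B5.H69

open scoped LaurentPolynomial
open Pool.Agent.B5 Polynomial

set_option linter.unusedSectionVars false

noncomputable section

section Pl

variable {O : Type} [CommRing O] [Coef O] {N : Type} [AddCommGroup N]

/-- The polynomial `t ↦ t^(-m) G(t^lam)`, with weights. -/
def pl (z : Circle) (w : N → ℂ) (lam : N →+ ℤ) (m : ℤ) (G : AO O N) : ℂ[X] :=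
  ∑ a ∈ G.coeff.support, monomial (lam a - m).toNat (evR z (G.coeff a) * w a)

theorem pl_eval (z : Circle) (w : N → ℂ) (lam : N →+ ℤ) (m : ℤ) (G : AO O N) (s : ℂ) :
    (pl z w lam m G).eval s = ln z (fun a => s ^ (lam a - m).toNat * w a) G := by
  rw [pl, ln_eq, eval_finsetSum]
  apply Finset.sum_congr rfl
  intro a _
  rw [eval_monomial]
  ring

theorem pl_circle (z : Circle) (w : N → ℂ) (lam : N →+ ℤ) (m : ℤ) (G : AO O N)
    (hm : ∀ a ∈ supp G, m ≤ lam a) (t : Circle) :
    ‖(pl z w lam m G).eval (t : ℂ)‖ = ‖ln z (fun a => w a * ((t ^ (lam a) : Circle) : ℂ)) G‖ := by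
  rw [pl_eval]
  have h1 : ∀ a ∈ supp G, (t : ℂ) ^ (lam a - m).toNat * w a =
      ((t ^ (-m) : Circle) : ℂ) * (w a * ((t ^ (lam a) : Circle) : ℂ)) := by
    intro a ha
    have h2 : (t : ℂ) ^ (lam a - m).toNat = ((t ^ (lam a - m) : Circle) : ℂ) := by
      rw [Circle.coe_zpow, ← zpow_natCast, Int.toNat_of_nonneg (by have := hm a ha; omega)]
    rw [h2, sub_eq_neg_add, zpow_add, Circle.coe_mul]
    ring
  rw [ln_congr z h1, ln_wmul, norm_mul, Circle.norm_coe, one_mul]

theorem pl_coeff (z : Circle) (w : N → ℂ) (lam : N →+ ℤ) (m : ℤ) (G : AO O N) (a0 : N)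
    (hu : ∀ a ∈ supp G, lam a ≤ m → a = a0) (h0 : lam a0 = m) :
    (pl z w lam m G).coeff 0 = evR z (G.coeff a0) * w a0 := by
  classical
  rw [pl, finsetSum_coeff]
  simp only [coeff_monomial]
  by_cases ha : a0 ∈ G.coeff.support
  · rw [Finset.sum_eq_single a0]
    · rw [h0, sub_self, if_pos Int.toNat_zero]
    · intro a ha' hne
      rw [if_neg]
      intro h1
      apply hne
      apply hu a (Finsupp.mem_support_iff.mp ha')
      omega
    · intro h1
      exact absurd ha h1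
  · rw [Finsupp.notMem_support_iff.mp ha, map_zero, zero_mul]
    apply Finset.sum_eq_zero
    intro a ha'
    rw [if_neg]
    intro h1
    apply ha
    have h2 : a = a0 := hu a (Finsupp.mem_support_iff.mp ha') (by omega)
    rw [← h2]
    exact ha'

theorem coeff_le_mahler (hA6 : A6S) (p : ℂ[X]) : ‖p.coeff 0‖ ≤ p.mahlerMeasure := by
  by_cases h : p.coeff 0 = 0
  · rw [h, norm_zero]
    exact p.mahlerMeasure_nonneg
  · have h1 : p.trailingCoeff = p.coeff 0 := by
      rw [trailingCoeff, natTrailingDegree_eq_zero_of_constantCoeff_ne_zero]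
      exact h
    rw [← h1]
    exact hA6 p

end Pl

theorem nontr : Nontrivial Circle := by
  refine ⟨1, Circle.exp Real.pi, ?_⟩
  intro h
  have h1 : ((1 : Circle) : ℂ) = ((Circle.exp Real.pi : Circle) : ℂ) := by rw [h]
  rw [Circle.coe_one, Circle.coe_exp, Complex.exp_pi_mul_I] at h1
  norm_num at h1

theorem conn : ConnectedSpace Circle := by
  have h : Function.Surjective (Circle.exp : ℝ → Circle) := fun z => ⟨Complex.arg z, Circle.exp_arg z⟩
  exact h.connectedSpace Circle.exp.continuous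

/-- A closed subset of the circle with finite complement is everything. -/
theorem all_of_closed (s : Set Circle) (hs : IsClosed s) (t : Set Circle) (ht : t.Finite)
    (h : ∀ z, z ∉ t → z ∈ s) (z : Circle) : z ∈ s := by
  have := nontr
  have := conn
  have h1 : Dense ((Set.univ : Set Circle) \ t) := dense_univ.sdiff_finite ht
  have h2 : (Set.univ : Set Circle) \ t ⊆ s := fun z hz => h z hz.2
  have h3 := h1.mono h2
  rw [← hs.closure_eq]
  exact h3 z

section Ctx

variable {O : Type} [CommRing O] [IsDomain O] [IsPrincipalIdealRing O] [Coef O]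
  {P L : Type} [Fintype P] [DecidableEq P] [AddCommGroup L] [Module.Free ℤ L] [Module.Finite ℤ L]

variable {phi : L →+ (P → ℤ)} {D : AO O L} {S : L} {i0 : P} {eta : (RO O)ˣ}
    {h : co phi i0 S = 1} {c : RO O} {n : ℕ} {G : Fin n → AO O (Ker (co phi i0))}
    {κ : Type} [Fintype κ] {ix : κ → Fin n} {b : κ → Ker (co phi i0)} {jj : κ → P}
    {e : κ → (RO O)ˣ}

/-- The inequality for generic `z`. -/
theorem Dat.gen (hA4 : A4S) (hA2 : A2cS) (hA6 : A6S) (hA7 : A7S) (hMul : MultiS) (hSt : StSpecS)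
    (hEv : EvRS) (hd : Dat phi D S i0 eta h c n G κ ix b jj e)
    (q : ∀ l, AO O (Ker (co (phK phi (co phi i0)) (jj l))))
    (hj : ∀ l, co (phK phi (co phi i0)) (jj l) (b l) = 1)
    (hX : ∀ l, Xl phi D i0 (b l) (jj l) (hj l) (e l) =
      q l * ∏ i ∈ Finset.univ.erase (ix l), res (Ker (co (phK phi (co phi i0)) (jj l))) (G i))
    (hq : ∀ l, ∀ a ∈ supp (q l), ∀ j' ∈ OO phi S, phi ((b l : Ker (co phi i0)) : L) j' = 0 →
      phi ((a : Ker (co phi i0)) : L) j' = 0)
    (hV : ∀ a ∈ supp (cl (co phi i0) S h eta D), ∀ j ∈ OO phi S,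
      phi (a : L) j = 0 ∨ phi (a : L) j = 1)
    (hpos : ∀ lam : L →+ ℤ, lam S = 0 → (∀ a ∈ supp D, a ≠ 0 → a ≠ S → 0 < lam a) →
      Pos (lam.comp (incl (Ker (co phi i0)))) (cl (co phi i0) S h eta D))
    (lam : L →+ ℤ) (hlS : lam S = 0) (hlam : ∀ a ∈ supp D, a ≠ 0 → a ≠ S → 0 < lam a)
    (m : κ → ℤ) (am : ∀ l, Ker (co (phK phi (co phi i0)) (jj l)))
    (ham : ∀ l, lam ((am l : Ker (co phi i0)) : L) = m l)
    (hmin : ∀ l, ∀ a ∈ supp (q l), m l ≤ lam ((a : Ker (co phi i0)) : L))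
    (huq : ∀ l, ∀ a ∈ supp (q l), lam ((a : Ker (co phi i0)) : L) ≤ m l → a = am l)
    (z : Circle) (hz : evR z (D.coeff 0) ≠ 0) (hcz : evR z c ≠ 0) :
    (∑ l, ‖evR z ((q l).coeff (am l))‖) *
      ∏ i ∈ Finset.univ.filter (fun i => ∀ l, ix l ≠ i), ‖evR z ((G i).coeff 0)‖ ≤
      2 * ‖evR z (D.coeff 0)‖ := by
  classical
  set lam' : Ker (co phi i0) →+ ℤ := lam.comp (incl (Ker (co phi i0))) with hlam'
  set X := res (Ker (co phi i0)) D with hXd
  set F : Finset (Fin n) := Finset.univ.filter (fun i => ∀ l, ix l ≠ i) with hF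
  -- the polynomials
  set x0 : ℂ[X] := pl z (ind (mK phi i0) (Zf phi S i0 b jj)) lam' 0 X with hx0
  set pg : Fin n → ℂ[X] := fun i => pl z (ind (mK phi i0) (Zf phi S i0 b jj)) lam' 0 (G i) with hpg
  set pq : κ → ℂ[X] := fun l => pl z (fun _ => (1 : ℂ))
    (lam'.comp (incl (Ker (co (phK phi (co phi i0)) (jj l))))) (m l) (q l) with hpq
  -- non-negativity
  have hXnn : ∀ a ∈ supp X, 0 ≤ lam' a := by
    intro a ha
    by_cases h1 : (a : L) = 0
    · change 0 ≤ lam (a : L)
      rw [h1, map_zero]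
    · by_cases h2 : (a : L) = S
      · change 0 ≤ lam (a : L)
        rw [h2, hlS]
      · exact (hlam (a : L) ha h1 h2).le
  have hfull : ∀ i, FullAt lam' (G i) := fun i => hd.fd.full i lam' (hpos lam hlS hlam)
  have hGnn : ∀ i, ∀ a ∈ supp (G i), 0 ≤ lam' a := by
    intro i a ha
    by_cases h1 : a = 0
    · rw [h1, map_zero]
    · exact ((hfull i).2.1 a (Finsupp.mem_support_iff.mpr ha) h1).le
  -- constant coefficients
  have hx00 : x0.coeff 0 = evR z (D.coeff 0) := by
    rw [hx0, pl_coeff z _ lam' 0 X 0 _ (map_zero _), ind_zero, mul_one]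
    · rfl
    · intro a ha hle
      by_contra hne
      have h1 : (a : L) ≠ 0 := fun h2 => hne (Subtype.ext h2)
      have h2 : (a : L) ≠ S := by
        intro h3
        have h4 := mem_Ker.mp a.2
        rw [h3, h] at h4
        exact absurd h4 one_ne_zero
      have h3 := hlam (a : L) ha h1 h2
      change lam (a : L) ≤ 0 at hle
      omega
  have hpg0 : ∀ i, (pg i).coeff 0 = evR z ((G i).coeff 0) := by
    intro i
    change (pl z (ind (mK phi i0) (Zf phi S i0 b jj)) lam' 0 (G i)).coeff 0 = _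
    rw [pl_coeff z _ lam' 0 (G i) 0 _ (map_zero _), ind_zero, mul_one]
    intro a ha hle
    by_contra hne
    have h1 := (hfull i).2.1 a (Finsupp.mem_support_iff.mpr ha) hne
    omega
  have hpq0 : ∀ l, (pq l).coeff 0 = evR z ((q l).coeff (am l)) := by
    intro l
    change (pl z (fun _ => (1 : ℂ)) _ (m l) (q l)).coeff 0 = _
    rw [pl_coeff z _ _ (m l) (q l) (am l) (fun a ha hle => huq l a ha hle) (ham l), mul_one]
  -- zero-freeness
  have hZF : ZF x0 := by
    intro s hs
    have h1 := lemB hMul hSt hEv phi D S i0 eta h hd.fd.cc.dd lam hlS hlam z hz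
      (κ := Empty) (fun l => l.elim) (fun l => l.elim) (Zf phi S i0 b jj) hd.Zf_sub
      (1 : AddChar (Ker (co phi i0)) Circle) s 0
      (fun l => l.elim) hs (by rw [norm_zero]; norm_num) (fun l => l.elim)
    rw [zero_mul, add_zero] at h1
    rw [hx0, pl_eval]
    have h2 : (fun a : Ker (co phi i0) => s ^ (lam' a - 0).toNat *
        ind (mK phi i0) (Zf phi S i0 b jj) a) =
        wt phi i0 lam (κ := Empty) (fun l => l.elim) (Zf phi S i0 b jj)
          (1 : AddChar (Ker (co phi i0)) Circle) s (fun l => l.elim) := by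
      funext a
      unfold wt
      rw [sub_zero, AddChar.one_apply, Circle.coe_one, mul_one, Finset.univ_eq_empty,
        Finset.prod_empty, mul_one]
      rfl
    rw [h2]
    exact h1
  have hx0ne : x0 ≠ 0 := by
    intro h1
    rw [h1, coeff_zero] at hx00
    exact hz hx00.symm
  -- the inequality on the circle
  have hcirc : ∀ s : ℂ, ‖s‖ = 1 →
      ∑ l, ‖(pq l * ∏ i ∈ F, pg i).eval s‖ ≤ 2 * ‖x0.eval s‖ := by
    intro s hs
    let t : Circle := ⟨s, by
      rw [Submonoid.unitSphere, Submonoid.mem_mk, Subsemigroup.mem_mk, Metric.mem_sphere,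
        dist_zero_right]
      exact hs⟩
    have hts : (t : ℂ) = s := rfl
    let u : AddChar (Ker (co phi i0)) Circle := twist 1 lam' t
    have hu : ∀ a, (u a : ℂ) = ((t ^ (lam' a) : Circle) : ℂ) := by
      intro a
      change (((1 : AddChar (Ker (co phi i0)) Circle) a * t ^ (lam' a) : Circle) : ℂ) = _
      rw [AddChar.one_apply, one_mul]
    have h1 := hd.torus hA4 hMul hSt hEv q hj hX hq hV lam hlS hlam z hz hcz u
    have h2 : ‖x0.eval s‖ = ‖ln z (kw phi i0 (Zf phi S i0 b jj) u) X‖ := by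
      rw [← hts, hx0, pl_circle z _ lam' 0 X hXnn t]
      congr 2
      funext a
      unfold kw
      rw [hu]
    have h3 : ∀ i, ‖(pg i).eval s‖ = ‖ln z (kw phi i0 (Zf phi S i0 b jj) u) (G i)‖ := by
      intro i
      rw [← hts]
      change ‖(pl z (ind (mK phi i0) (Zf phi S i0 b jj)) lam' 0 (G i)).eval (t : ℂ)‖ = _
      rw [pl_circle z _ lam' 0 (G i) (hGnn i) t]
      congr 2
      funext a
      unfold kw
      rw [hu]
    have h4 : ∀ l, ‖(pq l).eval s‖ = ‖ln z (fun a : Ker (co (phK phi (co phi i0)) (jj l)) =>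
        (u (a : Ker (co phi i0)) : ℂ)) (q l)‖ := by
      intro l
      rw [← hts]
      change ‖(pl z (fun _ => (1 : ℂ)) _ (m l) (q l)).eval (t : ℂ)‖ = _
      rw [pl_circle z _ _ (m l) (q l) (hmin l) t]
      have h8 : (fun a : Ker (co (phK phi (co phi i0)) (jj l)) => (1 : ℂ) *
          ((t ^ ((lam'.comp (incl (Ker (co (phK phi (co phi i0)) (jj l))))) a) : Circle) : ℂ)) =
          fun a : Ker (co (phK phi (co phi i0)) (jj l)) => (u (a : Ker (co phi i0)) : ℂ) := by
        funext a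
        rw [one_mul, hu]
        rfl
      rw [h8]
    have h5 : ∀ l, ‖(pq l * ∏ i ∈ F, pg i).eval s‖ =
        ‖ln z (fun a : Ker (co (phK phi (co phi i0)) (jj l)) =>
        (u (a : Ker (co phi i0)) : ℂ)) (q l)‖ *
        ∏ i ∈ F, ‖ln z (kw phi i0 (Zf phi S i0 b jj) u) (G i)‖ := by
      intro l
      rw [eval_mul, norm_mul, h4, eval_prod, norm_prod]
      congr 1
      exact Finset.prod_congr rfl (fun i _ => h3 i)
    rw [Finset.sum_congr rfl (fun l _ => h5 l), ← Finset.sum_mul, h2]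
    exact h1
  -- Mahler measures
  have h6 := hA2 κ (fun l => pq l * ∏ i ∈ F, pg i) x0 2 hx0ne (by norm_num) hcirc
  rw [hA7 x0 hZF, hx00] at h6
  refine le_trans ?_ h6
  rw [Finset.sum_mul]
  apply Finset.sum_le_sum
  intro l _
  have h7 := coeff_le_mahler hA6 (pq l * ∏ i ∈ F, pg i)
  rw [mul_coeff_zero, coeff_zero_prod, norm_mul, norm_prod, hpq0] at h7
  rw [Finset.prod_congr rfl (fun i _ => by rw [hpg0 i] :
    ∀ i ∈ F, ‖(pg i).coeff 0‖ = ‖evR z ((G i).coeff 0)‖)] at h7
  exact h7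

end Ctx

end

end Pool.Agent.B5.H69
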